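import Pool.Agent.Y641.CG.SDZ

/-! The exponent near `(0, 0, χ₀)`: the main theorem. -/

set_option autoImplicit false

namespace Pool.Agent.Y641.CG

open Filter Topology Metric MeasureTheory Set
open scoped Real ComplexConjugate
open Pool.Agent.W711.HT Pool.Agent.W398.HT
open Pool.Agent.Y472 (gh dzz tzz szz FF Fz s0 Zr Rz S_S0P SDZ)
open Pool.Agent.Y641.CB (an1 an2 an3 slice1 slice3)

/-- the derivative in the first variable -/
noncomputable def GA (p : ℂ × ℂ × ℂ) : ℂ := -(1 / (2 * π)) * Lg (2 * π * dz p) p.1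

/-- the derivative in the third variable -/
noncomputable def GC (p : ℂ × ℂ × ℂ) : ℂ := -(1 / (2 * π)) * Lg (π - 2 * π * dz p) p.2.2

theorem DD_1 (p : ℂ × ℂ × ℂ) : DD p (1, 0, 0) = GA p := by
  simp only [DD, add_apply, smul_apply, smul_eq_mul, dx1_apply, dx2_apply, dx3_apply, GA]
  ring

theorem DD_3 (p : ℂ × ℂ × ℂ) : DD p (0, 0, 1) = GC p := by
  simp only [DD, add_apply, smul_apply, smul_eq_mul, dx1_apply, dx2_apply, dx3_apply, GC]
  ring

/-- slices -/
theorem sl1 {F : ℂ × ℂ × ℂ → ℂ} {F' : ℂ × ℂ × ℂ →L[ℂ] ℂ} {p : ℂ × ℂ × ℂ} (hp : HasFDerivAt F F' p) :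
    HasDerivAt (fun z => F (z, p.2.1, p.2.2)) (F' (1, 0, 0)) p.1 := by
  have := slice1 F p hp.differentiableAt
  rwa [hp.fderiv] at this

theorem sl3 {F : ℂ × ℂ × ℂ → ℂ} {F' : ℂ × ℂ × ℂ →L[ℂ] ℂ} {p : ℂ × ℂ × ℂ} (hp : HasFDerivAt F F' p) :
    HasDerivAt (fun z => F (p.1, p.2.1, z)) (F' (0, 0, 1)) p.2.2 := by
  have := slice3 F p hp.differentiableAt
  rwa [hp.fderiv] at this

section
variable {β : ℂ} (h : Rg β)
include h

theorem GA_an : AnalyticAt ℂ GA (p0 β) := analyticAt_const.mul (lg1 h (an1 (p0 β)) rfl).1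

theorem GC_an : AnalyticAt ℂ GC (p0 β) := analyticAt_const.mul (lgc h).1

theorem inv_re_pos : 0 < ((Complex.cos β)⁻¹).re := by
  rw [Complex.inv_re]
  exact div_pos (wr_pos h) (Complex.normSq_pos.2 (cos_ne h))

theorem GA_val : fderiv ℂ GA (p0 β) (1, 0, 0) = -(1 / (2 * π)) * (Complex.cos β)⁻¹ := by
  have h1 := slice1 _ _ (GA_an h).differentiableAt
  have hd := slice1 dz _ (dz_an h).differentiableAt
  set A := fderiv ℂ dz (p0 β) (1, 0, 0) with hA
  have hu : HasDerivAt (fun t : ℂ => 2 * π * dz (t, (p0 β).2.1, (p0 β).2.2)) (2 * π * A) (p0 β).1 :=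
    hd.const_mul _
  have ed : dz ((p0 β).1, (p0 β).2.1, (p0 β).2.2) = d0 β := dz_p0 h
  have e0 : Complex.cos ((2 * π * dz ((p0 β).1, (p0 β).2.1, (p0 β).2.2) + (p0 β).1) / 2) =
      Complex.sin (al β) := by
    rw [ed, show (p0 β).1 = 0 from rfl, add_zero, show 2 * π * d0 β / 2 = π * d0 β by ring, pi_d0,
      Complex.cos_pi_div_two_sub]
  have e0' : Complex.cos ((2 * π * dz ((p0 β).1, (p0 β).2.1, (p0 β).2.2) - (p0 β).1) / 2) =
      Complex.sin (al β) := by
    rw [ed, show (p0 β).1 = 0 from rfl, sub_zero, show 2 * π * d0 β / 2 = π * d0 β by ring, pi_d0,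
      Complex.cos_pi_div_two_sub]
  have hs := sin_al_ne h
  have h2 := Pool.Agent.Y574.CB.Lg_comp hu (hasDerivAt_id (p0 β).1) (by simp only [id]; rw [e0]; exact hs)
    (by simp only [id]; rw [e0']; exact hs) (by
      simp only [id]; rw [e0, e0', div_self hs]; exact Complex.one_mem_slitPlane)
  have h3 := h2.const_mul (-(1 / (2 * π)) : ℂ)
  have h4 := h1.unique h3
  rw [h4]
  simp only [id]
  rw [ed, show 2 * π * d0 β = π - 2 * al β by linear_combination 2 * pi_d0 β, Complex.sin_pi_sub,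
    Complex.cos_pi_sub, show (p0 β).1 = 0 from rfl, Complex.sin_zero, Complex.cos_zero,
    Complex.sin_two_mul, Complex.cos_two_mul]
  have s2 := Complex.sin_sq_add_cos_sq (al β)
  have e5 : -(2 * Complex.cos (al β) ^ 2 - 1) + 1 = 2 * Complex.sin (al β) ^ 2 := by
    linear_combination (-2) * s2
  rw [e5]
  have hc := cos_al_ne h
  have hw := cos_ne h
  have e6 := sin_al h
  congr 1
  rw [zero_mul, add_zero, mul_one, div_eq_iff (mul_ne_zero two_ne_zero (pow_ne_zero 2 hs)), e6]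
  field_simp

theorem ev_wpos : ∀ᶠ p : ℂ × ℂ × ℂ in 𝓝 (p0 β), 0 < (Complex.cos (p.2.2 / 2)).re ∧ |p.2.2.re| < π := by
  have c1 : ContinuousAt (fun p : ℂ × ℂ × ℂ => (Complex.cos (p.2.2 / 2)).re) (p0 β) :=
    Complex.continuous_re.continuousAt.comp' (Complex.analyticAt_cos.fun_comp (han3 _)).continuousAt
  have c2 : ContinuousAt (fun p : ℂ × ℂ × ℂ => |p.2.2.re|) (p0 β) := by fun_prop
  refine (c1.eventually_const_lt ?_).and (c2.eventually_lt_const ?_)
  · change 0 < (Complex.cos ((p0 β).2.2 / 2)).re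
    rw [half3]; exact wr_pos h
  · change |(p0 β).2.2.re| < π
    have e : (p0 β).2.2.re = 2 * β.re := by simp [p0]
    rw [e, abs_lt]
    have := h.r1
    have := h.r2
    have hp := Real.pi_pos
    constructor <;> linarith

theorem GC_axis (hS : S_S0P) : ∀ᶠ z : ℂ in 𝓝 (2 * β), GC (0, 0, z) = -(1 / π) * gh z := by
  have ht : Tendsto (fun z : ℂ => ((0, 0, z) : ℂ × ℂ × ℂ)) (𝓝 (2 * β)) (𝓝 (p0 β)) := by
    have : ContinuousAt (fun z : ℂ => ((0, 0, z) : ℂ × ℂ × ℂ)) (2 * β) := by fun_prop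
    exact this.tendsto
  have h1 := ht.eventually (ev_szz h)
  have h2 := ht.eventually (ev_wpos h)
  filter_upwards [h1, h2.eventually_nhds] with z h1 h2
  have k1 := sl3 h1
  rw [DD_3] at k1
  have hz := h2.self_of_nhds
  have k2 := (hS.1 z hz.2).1
  have k3 : (fun z => szz 0 0 z) =ᶠ[𝓝 z] s0 := by
    filter_upwards [h2] with x hx
    exact szz_zero hx.1
  exact k1.unique (k2.congr_of_eventuallyEq k3)

theorem GC_val (hS : S_S0P) : fderiv ℂ GC (p0 β) (0, 0, 1) = -(1 / (2 * π)) * (Complex.cos β)⁻¹ := by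
  have hp := pi_ne
  have h1 := slice3 _ _ (GC_an h).differentiableAt
  have h2 : (fun z => GC ((p0 β).1, (p0 β).2.1, z)) =ᶠ[𝓝 (2 * β)] fun z => -(1 / π) * gh z :=
    GC_axis h hS
  have hre : |(2 * β).re| < π := (ev_wpos h).self_of_nhds.2
  have h3 := ((hS.1 _ hre).2).const_mul (-(1 / π) : ℂ)
  have h4 := (h3.congr_of_eventuallyEq h2).unique h1
  rw [← h4, mul_div_cancel_left₀ _ (two_ne_zero)]
  have := cos_ne h
  field_simp

theorem conc_ev (hS : S_S0P) : ∃ c : ℝ, 0 < c ∧ ∀ᶠ p : ℂ × ℂ × ℂ in 𝓝 (p0 β),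
    (fderiv ℂ GA p (1, 0, 0)).re ≤ -c ∧ (fderiv ℂ GC p (0, 0, 1)).re ≤ -c := by
  have hp := Real.pi_pos
  have h1 : ContinuousAt (fun p : ℂ × ℂ × ℂ => (fderiv ℂ GA p (1, 0, 0)).re) (p0 β) := by
    have := (GA_an h).fderiv.continuousAt
    exact Complex.continuous_re.continuousAt.comp' (this.clm_apply continuousAt_const)
  have h3 : ContinuousAt (fun p : ℂ × ℂ × ℂ => (fderiv ℂ GC p (0, 0, 1)).re) (p0 β) := by
    have := (GC_an h).fderiv.continuousAt
    exact Complex.continuous_re.continuousAt.comp' (this.clm_apply continuousAt_const)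
  have hi := inv_re_pos h
  have e : (-(1 / (2 * π)) * (Complex.cos β)⁻¹ : ℂ).re = -(1 / (2 * π) * ((Complex.cos β)⁻¹).re) := by
    rw [show (-(1 / (2 * π)) * (Complex.cos β)⁻¹ : ℂ) = ((-(1 / (2 * π)) : ℝ) : ℂ) * (Complex.cos β)⁻¹ by
      push_cast; ring, Complex.re_ofReal_mul]
    ring
  have hc : 0 < 1 / (2 * π) * ((Complex.cos β)⁻¹).re := by positivity
  refine ⟨1 / (2 * π) * ((Complex.cos β)⁻¹).re / 2, by positivity, ?_⟩
  have t1 := h1.eventually_lt_const (u := -(1 / (2 * π) * ((Complex.cos β)⁻¹).re / 2)) (by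
    change (fderiv ℂ GA (p0 β) (1, 0, 0)).re < _
    rw [GA_val h, e]; linarith)
  have t3 := h3.eventually_lt_const (u := -(1 / (2 * π) * ((Complex.cos β)⁻¹).re / 2)) (by
    change (fderiv ℂ GC (p0 β) (0, 0, 1)).re < _
    rw [GC_val h hS, e]; linarith)
  filter_upwards [t1, t3] with p k1 k3
  exact ⟨k1.le, k3.le⟩

theorem dclose_ev : ∀ᶠ p : ℂ × ℂ × ℂ in 𝓝 (p0 β), ‖dz p - 1 / 4‖ ≤ 1 / 8 := by
  have hc : ContinuousAt (fun p : ℂ × ℂ × ℂ => ‖dz p - 1 / 4‖) (p0 β) :=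
    ((dz_an h).continuousAt.sub continuousAt_const).norm
  have hp := Real.pi_pos
  have h1 : ‖dz (p0 β) - 1 / 4‖ < 1 / 8 := by
    have e : dz (p0 β) - 1 / 4 = AA β / π := by
      rw [dz_p0 h, d0, al]
      have := pi_ne
      field_simp
      ring
    rw [e, norm_div, Complex.norm_real, Real.norm_of_nonneg hp.le, div_lt_iff₀ hp]
    have := norm_AA h
    linarith
  filter_upwards [hc.eventually_lt_const h1] with p hp
  exact hp.le

end

theorem ev_ball3 {χ : ℂ} {P : ℂ × ℂ × ℂ → Prop} (h : ∀ᶠ p in 𝓝 ((0, 0, χ) : ℂ × ℂ × ℂ), P p) :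
    ∃ r : ℝ, 0 < r ∧ ∀ x w z : ℂ, ‖x‖ < r → ‖w‖ < r → ‖z - χ‖ < r → P (x, w, z) := by
  rw [Metric.eventually_nhds_iff_ball] at h
  obtain ⟨r, hr, h⟩ := h
  refine ⟨r, hr, fun x w z hx hw hz => h (x, w, z) ?_⟩
  rw [mem_ball_iff_norm]
  have : ((x, w, z) : ℂ × ℂ × ℂ) - (0, 0, χ) = (x, w, z - χ) := by
    simp
  rw [this, Prod.norm_mk, Prod.norm_mk]
  exact max_lt hx (max_lt hw hz)

theorem sdz : Pool.Agent.Y472.S_SDZ := by
  intro hS χ₀ hZ
  obtain ⟨z1, z2, z3, z4⟩ := hZ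
  have hpi : (0:ℝ) < π := Real.pi_pos
  set β : ℂ := χ₀ / 2 with hβ
  have h2β : 2 * β = χ₀ := by rw [hβ]; ring
  have r1 : β.re = χ₀.re / 2 := by rw [hβ]; simp
  have r2 : β.im = χ₀.im / 2 := by rw [hβ]; simp
  have h : Rg β := ⟨by rw [r1]; linarith, by rw [r1]; linarith, by rw [r2]; linarith,
    by rw [r2]; linarith, Or.inr (by rw [r2]; linarith)⟩
  have hp0 : p0 β = (0, 0, χ₀) := by rw [p0, h2β]
  obtain ⟨c, hc, hconc⟩ := conc_ev h hS
  -- equality of the two expressions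
  have heq : ∀ᶠ p : ℂ × ℂ × ℂ in 𝓝 (p0 β), szz p.1 p.2.1 p.2.2 = sS p := by
    have h1 := (ev_szz h).and (ev_sS h)
    rw [Metric.eventually_nhds_iff_ball] at h1
    obtain ⟨r, hr, h1⟩ := h1
    filter_upwards [ball_mem_nhds (p0 β) hr] with p hp
    have hconst := isOpen_ball.is_const_of_fderiv_eq_zero (𝕜 := ℂ)
      (f := fun p : ℂ × ℂ × ℂ => szz p.1 p.2.1 p.2.2 - sS p) (s := ball (p0 β) r)
      (convex_ball _ _).isPreconnected
      (fun q hq => ((h1 q hq).1.sub (h1 q hq).2).differentiableAt.differentiableWithinAt)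
      (fun q hq => by
        have := ((h1 q hq).1.sub (h1 q hq).2).fderiv
        rw [sub_self] at this
        exact this) hp (mem_ball_self hr)
    have h2 : szz (p0 β).1 (p0 β).2.1 (p0 β).2.2 = s0 (2 * β) := szz_zero (by
      have := wr_pos h
      rw [← half3 β] at this
      exact this)
    have h3 := sS_base hS h (by rw [r2]; linarith)
    rw [h2, h3, sub_self] at hconst
    exact sub_eq_zero.1 hconst
  have e4 : ∀ᶠ p : ℂ × ℂ × ℂ in 𝓝 (p0 β), DifferentiableAt ℂ dz p :=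
    (dz_an h).eventually_analyticAt.mono fun p hp => hp.differentiableAt
  have e6 : ∀ᶠ p : ℂ × ℂ × ℂ in 𝓝 (p0 β), DifferentiableAt ℂ GA p :=
    (GA_an h).eventually_analyticAt.mono fun p hp => hp.differentiableAt
  have e6' : ∀ᶠ p : ℂ × ℂ × ℂ in 𝓝 (p0 β), DifferentiableAt ℂ GC p :=
    (GC_an h).eventually_analyticAt.mono fun p hp => hp.differentiableAt
  have e8 : ∀ᶠ p : ℂ × ℂ × ℂ in 𝓝 (p0 β),
      ‖szz p.1 p.2.1 p.2.2‖ < ‖szz (p0 β).1 (p0 β).2.1 (p0 β).2.2‖ + 1 := by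
    have : ContinuousAt (fun p : ℂ × ℂ × ℂ => ‖szz p.1 p.2.1 p.2.2‖) (p0 β) :=
      (ev_szz h).self_of_nhds.continuousAt.norm
    apply this.eventually_lt_const
    simp
  have hall := (ev_szz h).and (e4.and (e6.and (e6'.and (e8.and (hconc.and ((dclose_ev h).and
    ((ev_dcos h).and ((ev_dcrit h).and (heq.and ((ev_tneg h).and (ev_wpos h)))))))))))
  rw [hp0] at hall
  obtain ⟨r, hr₀, H⟩ := ev_ball3 hall
  have hin : ∀ z ∈ Rc (min 1 (r / 2)) (min 1 (r / 2)), ‖z‖ < r := by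
    rintro z ⟨hz1, hz2⟩
    have h1 := Complex.norm_le_abs_re_add_abs_im z
    have h2 : min 1 (r / 2) ≤ r / 2 := min_le_right _ _
    linarith
  have hin' : ∀ z ∈ Rz χ₀ (min 1 (r / 2)), ‖z - χ₀‖ < r := fun z hz => hin _ hz
  refine ⟨min 1 (r / 2), c, ‖szz 0 0 χ₀‖ + 1, ?_⟩
  refine
    { hρ := ⟨lt_min one_pos (by positivity), min_le_left _ _⟩
      hc := hc
      hC := by positivity
      san := ?_
      dan := ?_
      sbd := ?_
      sym := fun ψ _ ψ' _ χ _ => szz_symm _ _ _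
      dsym := fun ψ _ ψ' _ χ _ => dzz_symm _ _ _
      ev := ?_
      dev := ?_
      zero := ?_
      conc := ?_
      dclose := ?_
      dcos := ?_
      dcrit := ?_
      scrit := ?_
      sder := ?_
      sderc := ?_ }
  · rintro ⟨x, w, z⟩ ⟨hx, hw, hz⟩
    exact (H x w z (hin x hx) (hin w hw) (hin' z hz)).1.differentiableAt.differentiableWithinAt
  · rintro ⟨x, w, z⟩ ⟨hx, hw, hz⟩
    exact (H x w z (hin x hx) (hin w hw) (hin' z hz)).2.1.differentiableWithinAt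
  · intro x hx w hw z hz
    exact (H x w z (hin x hx) (hin w hw) (hin' z hz)).2.2.2.2.1.le
  · intro x hx w hw z hz
    exact szz_neg_of (H x w z (hin x hx) (hin w hw) (hin' z hz)).2.2.2.2.2.2.2.2.2.2.1
  · intro x hx w hw z hz
    exact dzz_neg_of (H x w z (hin x hx) (hin w hw) (hin' z hz)).2.2.2.2.2.2.2.2.2.2.1
  · intro z hz
    exact szz_zero (H 0 0 z (by simpa using hr₀) (by simpa using hr₀)
      (hin' z hz)).2.2.2.2.2.2.2.2.2.2.2.1
  · intro x hx w hw z hz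
    have h2 := H x w z (hin x hx) (hin w hw) (hin' z hz)
    constructor
    · have h1 : deriv (fun t => szz t w z) =ᶠ[𝓝 x] fun t => GA (t, w, z) := by
        have : ball (0:ℂ) r ∈ 𝓝 x := isOpen_ball.mem_nhds (by simpa using hin x hx)
        filter_upwards [this] with t ht
        have := sl1 (H t w z (by simpa using ht) (hin w hw) (hin' z hz)).1
        rw [DD_1] at this
        exact this.deriv
      rw [h1.deriv_eq, (slice1 _ (x, w, z) h2.2.2.1).deriv]
      exact h2.2.2.2.2.2.1.1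
    · have h1 : deriv (fun t => szz x w t) =ᶠ[𝓝 z] fun t => GC (x, w, t) := by
        have : ball χ₀ r ∈ 𝓝 z :=
          isOpen_ball.mem_nhds (by rw [mem_ball_iff_norm]; exact hin' z hz)
        filter_upwards [this] with t ht
        have := sl3 (H x w t (hin x hx) (hin w hw) (by
          rw [mem_ball_iff_norm] at ht; exact ht)).1
        rw [DD_3] at this
        exact this.deriv
      rw [h1.deriv_eq, (slice3 _ (x, w, z) h2.2.2.2.1).deriv]
      exact h2.2.2.2.2.2.1.2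
  · intro x hx w hw z hz
    exact (H x w z (hin x hx) (hin w hw) (hin' z hz)).2.2.2.2.2.2.1
  · intro x hx w hw z hz
    exact (H x w z (hin x hx) (hin w hw) (hin' z hz)).2.2.2.2.2.2.2.1.2
  · intro x hx w hw z hz
    exact (H x w z (hin x hx) (hin w hw) (hin' z hz)).2.2.2.2.2.2.2.2.1
  · intro x hx w hw z hz
    exact (H x w z (hin x hx) (hin w hw) (hin' z hz)).2.2.2.2.2.2.2.2.2.1
  · intro x hx w hw z hz
    have := sl1 (H x w z (hin x hx) (hin w hw) (hin' z hz)).1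
    rw [DD_1] at this
    exact this
  · intro x hx w hw z hz
    have := sl3 (H x w z (hin x hx) (hin w hw) (hin' z hz)).1
    rw [DD_3] at this
    exact this

end Pool.Agent.Y641.CG
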