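import Pool.Agent.Y641.CG.Geo

/-! The base points are admissible. -/

set_option autoImplicit false

namespace Pool.Agent.Y641.CG

open Filter Topology Metric MeasureTheory Set
open scoped Real ComplexConjugate
open Pool.Agent.W711.HT Pool.Agent.W398.HT

/-- the critical value of `d / N` at the base point -/
noncomputable def d0 (β : ℂ) : ℂ := 1 / 2 - al β / π

theorem pi_ne : (π : ℂ) ≠ 0 := by exact_mod_cast Real.pi_ne_zero

theorem pi_d0 (β : ℂ) : π * d0 β = π / 2 - al β := by
  unfold d0
  have := pi_ne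
  field_simp

theorem sq_slit {z : ℂ} (h : 0 < z.re) : z ^ 2 ∈ Complex.slitPlane := by
  rw [Complex.mem_slitPlane_iff, sq, Complex.mul_re, Complex.mul_im]
  by_cases hi : z.im = 0
  · left; rw [hi]; nlinarith
  · right
    intro h0
    have : 2 * (z.re * z.im) = 0 := by linarith
    rcases mul_eq_zero.1 this with h1 | h1
    · norm_num at h1
    · rcases mul_eq_zero.1 h1 with h2 | h2
      · linarith
      · exact hi h2

theorem ofReal_mul_re' (z : ℂ) (t : ℝ) : (z * (t : ℂ)).re = t * z.re := by
  rw [mul_comm, Complex.re_ofReal_mul]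

theorem ofReal_mul_im' (z : ℂ) (t : ℝ) : (z * (t : ℂ)).im = t * z.im := by
  rw [mul_comm, Complex.im_ofReal_mul]

section
variable {β : ℂ} (h : Rg β)
include h

theorem adm_half : Adm (1 / 4) β := by
  intro t ht
  have ht0 := ht.1
  have ht1 := ht.2
  have hpi := Real.pi_pos
  have hcos : 0 ≤ Real.cos (π * t / 2) := by
    apply Real.cos_nonneg_of_neg_pi_div_two_le_of_le
    · have : 0 ≤ π * t / 2 := by positivity
      linarith
    · nlinarith
  have e2 : (π * (t : ℂ) / 4) = ((π * t / 4 : ℝ) : ℂ) := by push_cast; ring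
  have hre : (π * (t : ℂ) / 4).re = π * t / 4 := by rw [e2, Complex.ofReal_re]
  have him : (π * (t : ℂ) / 4).im = 0 := by rw [e2, Complex.ofReal_im]
  have hb1 : (β / 2).re = β.re / 2 := by simp
  have hb2 : (β / 2).im = β.im / 2 := by simp
  have hc := ratio_slit (a := π * (t : ℂ) / 4) (b := β / 2) (by
    left
    rw [hre, him, hb1, hb2, show 2 * (π * t / 4) = π * t / 2 by ring,
      show 2 * (β.re / 2) = β.re by ring, show 2 * (0:ℝ) = 0 by ring, Real.cosh_zero, mul_one]
    have h1 := cx_pos h
    have h2 := mul_nonneg hcos (Real.cosh_pos (2 * (β.im / 2))).le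
    linarith)
  have ea : (2 * π * (1 / 4 : ℂ) * t - β) / 2 = π * (t : ℂ) / 4 - β / 2 := by ring
  have eb : (2 * π * (1 / 4 : ℂ) * t + β) / 2 = π * (t : ℂ) / 4 + β / 2 := by ring
  refine ⟨?_, ?_, ?_⟩
  · unfold G
    simp only
    rw [show (2 * π * (1 / 4) * t : ℂ) = ((π * t / 2 : ℝ) : ℂ) by push_cast; ring,
      ← Complex.ofReal_cos, Complex.mem_slitPlane_iff]
    left
    have h1 := wr_pos h
    simp only [Complex.add_re, Complex.mul_re, Complex.re_ofNat, Complex.im_ofNat, zero_mul, sub_zero,
      Complex.ofReal_re]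
    linarith
  · unfold QQ
    simp only
    rw [ea, eb]
    exact hc.1
  · rw [eb]; exact hc.2.1

theorem pd0_re {t : ℝ} (ht : t ∈ Icc (0:ℝ) 1) : 0 < (Complex.cos (π * d0 β * t)).re := by
  have ht0 := ht.1
  have ht1 := ht.2
  have hpi := Real.pi_pos
  have h1 := al_re h
  rw [cos_re, ofReal_mul_re', ofReal_mul_im', pi_d0]
  have e : ((π : ℂ) / 2 - al β).re = π / 2 - (al β).re := by
    rw [Complex.sub_re, show (π : ℂ) / 2 = ((π / 2 : ℝ) : ℂ) by push_cast; ring, Complex.ofReal_re]
  rw [e]
  apply mul_pos _ (Real.cosh_pos _)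
  apply Real.cos_pos_of_mem_Ioo
  constructor
  · nlinarith
  · nlinarith

theorem adm_zero : Adm (d0 β) 0 := by
  intro t ht
  have h1 := pd0_re h ht
  have hne : Complex.cos (π * d0 β * t) ≠ 0 := by
    intro h0; rw [h0, Complex.zero_re] at h1; exact lt_irrefl _ h1
  have e1 : (2 * π * d0 β * t - 0) / 2 = π * d0 β * t := by ring
  have e2 : (2 * π * d0 β * t + 0) / 2 = π * d0 β * t := by ring
  refine ⟨?_, ?_, ?_⟩
  · unfold G
    simp only
    have e : 2 * Complex.cos 0 + 2 * Complex.cos (2 * π * d0 β * t) =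
        (2 * Complex.cos (π * d0 β * t)) ^ 2 := by
      rw [show (2 * π * d0 β * t) = 2 * (π * d0 β * t) by ring, Complex.cos_two_mul, Complex.cos_zero]
      ring
    rw [e]
    apply sq_slit
    simp only [Complex.mul_re, Complex.re_ofNat, Complex.im_ofNat, zero_mul, sub_zero]
    linarith
  · unfold QQ
    simp only
    rw [e1, e2, div_self hne]
    exact Complex.one_mem_slitPlane
  · rw [e2]; exact hne

theorem adm_S : AdmS (d0 β) := by
  intro t ht
  have ht0 := ht.1
  have ht1 := ht.2
  have hpi := Real.pi_pos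
  have h1 := al_re h
  have e : ((π : ℂ) / 2 - al β).re = π / 2 - (al β).re := by
    rw [Complex.sub_re, show (π : ℂ) / 2 = ((π / 2 : ℝ) : ℂ) by push_cast; ring, Complex.ofReal_re]
  rcases ht0.eq_or_lt with h00 | h00
  · have e1 : kk (d0 β) t = 2 * (π * d0 β) := by
      rw [← h00]
      unfold kk
      push_cast
      rw [mul_zero, sc_zero]
      ring
    rw [e1, pi_d0, Complex.mem_slitPlane_iff]
    left
    simp only [Complex.mul_re, Complex.re_ofNat, Complex.im_ofNat, zero_mul, sub_zero, e]
    linarith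
  · have e1 : kk (d0 β) t = ((2 / t : ℝ) : ℂ) * Complex.sin (π * d0 β * t) := by
      have h1 := sin_kk (d0 β) t
      have h2 : (t : ℂ) ≠ 0 := by exact_mod_cast h00.ne'
      push_cast
      rw [div_mul_eq_mul_div, eq_div_iff h2, mul_comm, ← h1]
    rw [e1, Complex.mem_slitPlane_iff]
    left
    rw [Complex.re_ofReal_mul]
    apply mul_pos (by positivity)
    rw [sin_re, ofReal_mul_re', ofReal_mul_im', pi_d0, e]
    apply mul_pos _ (Real.cosh_pos _)
    apply Real.sin_pos_of_pos_of_lt_pi
    · apply mul_pos h00; linarith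
    · nlinarith

theorem q_nn : 0 ≤ (al β).im := by
  obtain ⟨N, hN, -, -, h2⟩ := NN h
  have h3 := wi_nn h
  have h4 : 0 ≤ Real.sinh (al β).im * Real.cosh (al β).im := by rw [h2]; positivity
  have h5 : 0 ≤ Real.sinh (al β).im := nonneg_of_mul_nonneg_left h4 (Real.cosh_pos _)
  exact Real.sinh_nonneg_iff.1 h5

theorem ratio_chi {t : ℝ} (ht : t ∈ Icc (0:ℝ) 1) :
    0 < Real.cos (2 * (al β * t).re) * Real.cosh (2 * β.im) + Real.cos (2 * β.re) *
      Real.cosh (2 * (al β * t).im) ∨
    Real.sin (2 * (al β * t).re) * Real.sinh (2 * β.im) + Real.sin (2 * β.re) *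
      Real.sinh (2 * (al β * t).im) ≠ 0 := by
  obtain ⟨N, hN, hN1, h1, h2⟩ := NN h
  have hp := al_re h
  have hq := q_nn h
  have hpi := Real.pi_pos
  have ht0 := ht.1
  have ht1 := ht.2
  rw [ofReal_mul_re', ofReal_mul_im', show 2 * (t * (al β).re) = t * (2 * (al β).re) by ring,
    show 2 * (t * (al β).im) = t * (2 * (al β).im) by ring]
  set p := (al β).re
  set q := (al β).im
  by_cases hy : β.im = 0
  · left
    have hx : β.re = 0 := by
      rcases h.r3 with h3 | h3
      · exact h3
      · linarith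
    rw [hx, hy, mul_zero, Real.cosh_zero, Real.cos_zero, mul_one, one_mul]
    have h3 : -1 < Real.cos (t * (2 * p)) := by
      have h4 : 0 < Real.cos (t * p) := by
        apply Real.cos_pos_of_mem_Ioo
        constructor <;> nlinarith
      rw [show t * (2 * p) = 2 * (t * p) by ring, Real.cos_two_mul]
      have : 0 < Real.cos (t * p) ^ 2 := by positivity
      linarith
    have := Real.one_le_cosh (t * (2 * q))
    linarith
  · have hy0 : 0 < β.im := lt_of_le_of_ne h.i1 (Ne.symm hy)
    rcases ht0.eq_or_lt with h00 | h00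
    · left
      rw [← h00, zero_mul, zero_mul, Real.cos_zero, Real.cosh_zero, mul_one, one_mul]
      have h3 := cx_sq h
      have h4 := Real.cos_two_mul β.re
      have h5 := Real.one_le_cosh (2 * β.im)
      rw [h4]; linarith
    · right
      apply ne_of_gt
      have h3 : Real.sinh (t * (2 * q)) ≤ t * (2 * (N * (Complex.cos β).im)) := by
        refine (sinh_mul_le ht0 ht1 (by positivity)).trans ?_
        rw [Real.sinh_two_mul, ← h2]
        exact le_of_eq (by ring)
      have h4 : t * (2 * (N * (Complex.cos β).re)) ≤ Real.sin (t * (2 * p)) := by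
        refine le_trans ?_ (sin_mul_ge ht0 ht1 (by linarith) (by linarith))
        rw [Real.sin_two_mul, ← h1]
        exact le_of_eq (by ring)
      rw [cos_im] at h3
      rw [cos_re] at h4
      have c1 := cx_pos h
      have c2 := sx h
      have c3 := cosh_one (β := β)
      have c4 : 0 < Real.sinh β.im := Real.sinh_pos_iff.2 hy0
      have c5 : 0 < Real.sinh (2 * β.im) := Real.sinh_pos_iff.2 (by linarith)
      have c6 := Real.sin_sq_add_cos_sq β.re
      rw [Real.sinh_two_mul] at c5 ⊢
      rw [Real.sin_two_mul β.re]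
      set c := Real.cos β.re
      set s := Real.sin β.re
      set X := Real.cosh β.im
      set Y := Real.sinh β.im
      have f1 : t * (2 * (N * (c * X))) * (2 * Y * X) ≤ Real.sin (t * (2 * p)) * (2 * Y * X) :=
        mul_le_mul_of_nonneg_right h4 c5.le
      have f2 : -(2 * s * c) * Real.sinh (t * (2 * q)) ≤ -(2 * s * c) * (t * (2 * (N * -(s * Y)))) := by
        apply mul_le_mul_of_nonneg_left h3
        nlinarith
      have f3 : 0 < X ^ 2 - s ^ 2 := by nlinarith
      have f4 : 0 < 4 * t * N * c * Y * (X ^ 2 - s ^ 2) := by positivity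
      nlinarith

theorem G_chi {t : ℝ} (ht : t ∈ Icc (0:ℝ) 1) :
    2 * Complex.cos (2 * β) + 2 * Complex.cos (2 * (al β * t)) ∈ Complex.slitPlane := by
  obtain ⟨N, hN, hN1, h1, h2⟩ := NN h
  have hp := al_re h
  have hq := q_nn h
  have hpi := Real.pi_pos
  have ht0 := ht.1
  have ht1 := ht.2
  have b1 : (2 * β).re = 2 * β.re := by simp
  have b2 : (2 * β).im = 2 * β.im := by simp
  have b3 : (2 * (al β * t)).re = t * (2 * (al β).re) := by
    rw [show (2 * (al β * t) : ℂ) = (2 * al β) * (t : ℂ) by ring, ofReal_mul_re']; simp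
  have b4 : (2 * (al β * t)).im = t * (2 * (al β).im) := by
    rw [show (2 * (al β * t) : ℂ) = (2 * al β) * (t : ℂ) by ring, ofReal_mul_im']; simp
  rw [Complex.mem_slitPlane_iff]
  simp only [Complex.add_re, Complex.add_im, Complex.mul_re (2 : ℂ), Complex.mul_im (2 : ℂ),
    Complex.re_ofNat, Complex.im_ofNat, zero_mul, sub_zero, add_zero]
  rw [cos_re, cos_re, cos_im, cos_im, b1, b2, b3, b4]
  by_cases hx : β.re = 0
  · left
    have hw : (Complex.cos β).im = 0 := by rw [cos_im, hx, Real.sin_zero]; ring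
    have hq0 : (al β).im = 0 := by
      rw [hw, mul_zero] at h2
      rcases mul_eq_zero.1 h2 with h3 | h3
      · exact Real.sinh_eq_zero.1 h3
      · exact absurd h3 (Real.cosh_pos _).ne'
    rw [hx, hq0, mul_zero, mul_zero, Real.cos_zero, Real.cosh_zero, one_mul, mul_one]
    have h3 : -1 < Real.cos (t * (2 * (al β).re)) := by
      have h4 : 0 < Real.cos (t * (al β).re) := by
        apply Real.cos_pos_of_mem_Ioo
        constructor <;> nlinarith
      rw [show t * (2 * (al β).re) = 2 * (t * (al β).re) by ring, Real.cos_two_mul]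
      have : 0 < Real.cos (t * (al β).re) ^ 2 := by positivity
      linarith
    have := Real.one_le_cosh (2 * β.im)
    linarith
  · right
    have hy0 : 0 < β.im := by
      rcases h.r3 with h3 | h3
      · exact absurd h3 hx
      · exact h3
    have hs : 0 < -Real.sin β.re := by
      rw [← Real.sin_neg]
      apply Real.sin_pos_of_pos_of_lt_pi
      · have := h.r2
        have : β.re < 0 := lt_of_le_of_ne this hx
        linarith
      · linarith [h.r1]
    apply ne_of_gt
    have h3 : Real.sinh (t * (2 * (al β).im)) ≤ 2 * (Complex.cos β).im := by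
      have h4 : Real.sinh (t * (2 * (al β).im)) ≤ Real.sinh (2 * (al β).im) := by
        rw [Real.sinh_le_sinh]; nlinarith
      refine h4.trans ?_
      rw [Real.sinh_two_mul]
      have h5 : N * (Complex.cos β).im ≤ 1 * (Complex.cos β).im :=
        mul_le_mul_of_nonneg_right hN1 (wi_nn h)
      nlinarith
    rw [cos_im] at h3
    have h4 : Real.sin (t * (2 * (al β).re)) ≤ 1 := Real.sin_le_one _
    have h5 : 0 ≤ Real.sinh (t * (2 * (al β).im)) := Real.sinh_nonneg_iff.2 (by positivity)
    have h6 : Real.sin (t * (2 * (al β).re)) * Real.sinh (t * (2 * (al β).im)) ≤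
        1 * (2 * -(Real.sin β.re * Real.sinh β.im)) := by
      refine (mul_le_mul_of_nonneg_right h4 h5).trans ?_
      exact mul_le_mul_of_nonneg_left h3 zero_le_one
    have c1 := cx h
    have c3 := cosh_one (β := β)
    have c4 : 0 < Real.sinh β.im := Real.sinh_pos_iff.2 hy0
    have c7 : (1 : ℝ) < √2 := by
      apply Real.lt_sqrt_of_sq_lt; norm_num
    rw [Real.sin_two_mul β.re, Real.sinh_two_mul β.im]
    set c := Real.cos β.re
    set s := Real.sin β.re
    set X := Real.cosh β.im
    set Y := Real.sinh β.im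
    have k1 : 0 < -s * Y := mul_pos hs c4
    have k2 : 1 / 2 < c * X := by nlinarith
    nlinarith

theorem adm_chi : Adm (al β / π) (2 * β) := by
  intro t ht
  have hc := ratio_slit (ratio_chi h ht)
  have := pi_ne
  have ea : (2 * π * (al β / π) * t - 2 * β) / 2 = al β * t - β := by field_simp
  have eb : (2 * π * (al β / π) * t + 2 * β) / 2 = al β * t + β := by field_simp
  refine ⟨?_, ?_, ?_⟩
  · unfold G
    simp only
    rw [show (2 * π * (al β / π) * t : ℂ) = 2 * (al β * t) by field_simp]
    exact G_chi h ht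
  · unfold QQ
    simp only
    rw [ea, eb]
    exact hc.1
  · rw [eb]; exact hc.2.1

end

end Pool.Agent.Y641.CG
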