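import Pool.Agent.Y641.CG.Adm
import Pool.Agent.Y472.G.Defs

/-! Identities at the base point. -/

set_option autoImplicit false

namespace Pool.Agent.Y641.CG

open Filter Topology Metric MeasureTheory Set
open scoped Real ComplexConjugate
open Pool.Agent.W711.HT Pool.Agent.W398.HT
open Pool.Agent.Y472 (gh dzz tzz szz)

theorem ratio_re_pos {a b : ℂ}
    (h : 0 < Real.cos (2 * a.re) * Real.cosh (2 * b.im) + Real.cos (2 * b.re) * Real.cosh (2 * a.im)) :
    0 < (Complex.cos (a - b) / Complex.cos (a + b)).re := by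
  have key := ratio_key a b
  have hs := ratio_slit (a := a) (b := b) (Or.inl h)
  have hN : 0 < Complex.normSq (Complex.cos (a + b)) := Complex.normSq_pos.2 hs.2.1
  have e : Complex.cos (a - b) / Complex.cos (a + b) =
      (((Complex.normSq (Complex.cos (a + b)))⁻¹ : ℝ) : ℂ) *
      (Complex.cos (a - b) * conj (Complex.cos (a + b))) := by
    rw [div_eq_mul_inv, Complex.inv_def]
    ring
  rw [e, key, Complex.re_ofReal_mul]
  apply mul_pos (inv_pos.2 hN)
  rw [Complex.add_re, Complex.ofReal_re, Complex.re_ofReal_mul, Complex.I_re, mul_zero, add_zero]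
  linarith

theorem log_sq' {z : ℂ} (h : 0 < z.re) : Complex.log (z ^ 2) = 2 * Complex.log z := by
  have h1 : |Complex.arg z| < π / 2 := Complex.abs_arg_lt_pi_div_two_iff.2 (Or.inl h)
  rw [abs_lt] at h1
  have hne : z ≠ 0 := by
    intro h0; rw [h0, Complex.zero_re] at h; exact lt_irrefl _ h
  rw [sq, Complex.log_mul hne hne ⟨by linarith, by linarith⟩]
  ring

/-- the ratio at `π / 2` -/
theorem half_ratio {β : ℂ} (hc : Complex.cos ((π / 2 + β) / 2) ≠ 0) (hw : Complex.cos β ≠ 0) :
    Complex.cos ((π / 2 - β) / 2) / Complex.cos ((π / 2 + β) / 2) =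
      (1 + Complex.sin β) / Complex.cos β := by
  set x : ℂ := (π / 2 - β) / 2 with hx
  set y : ℂ := (π / 2 + β) / 2 with hy
  have e1 : Complex.cos y = Complex.sin x := by
    rw [← Complex.cos_pi_div_two_sub]; congr 1; rw [hx, hy]; ring
  have e2 : Complex.sin y = Complex.cos x := by
    rw [← Complex.sin_pi_div_two_sub]; congr 1; rw [hx, hy]; ring
  have e3 : Complex.cos β = 2 * Complex.sin x * Complex.cos x := by
    have : β = y - x := by rw [hx, hy]; ring
    rw [this, Complex.cos_sub, e1, e2]; ring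
  have e4 : Complex.sin β = Complex.cos x ^ 2 - Complex.sin x ^ 2 := by
    have : β = y - x := by rw [hx, hy]; ring
    rw [this, Complex.sin_sub, e1, e2]; ring
  rw [div_eq_div_iff hc hw, e1, e3, e4]
  linear_combination (Complex.sin x) * Complex.sin_sq_add_cos_sq x

theorem Lg_half {β : ℂ} (hc : Complex.cos ((π / 2 + β) / 2) ≠ 0) (hw : Complex.cos β ≠ 0) :
    Lg (π / 2) β = gh (2 * β) := by
  unfold Lg gh
  rw [half_ratio hc hw, mul_div_cancel_left₀ _ (two_ne_zero)]

section
variable {β : ℂ} (h : Rg β)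
include h

theorem half_ne : Complex.cos ((π / 2 + β) / 2) ≠ 0 := by
  have := (adm_half h 1 ⟨zero_le_one, le_rfl⟩).2.2
  rwa [show (2 * π * (1 / 4 : ℂ) * ((1 : ℝ) : ℂ) + β) / 2 = (π / 2 + β) / 2 by push_cast; ring] at this

theorem half_slit : Complex.cos ((π / 2 - β) / 2) / Complex.cos ((π / 2 + β) / 2) ∈
    Complex.slitPlane := by
  have := (adm_half h 1 ⟨zero_le_one, le_rfl⟩).2.1
  unfold QQ at this
  simp only at this
  rwa [show (2 * π * (1 / 4 : ℂ) * ((1 : ℝ) : ℂ) + β) / 2 = (π / 2 + β) / 2 by push_cast; ring,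
    show (2 * π * (1 / 4 : ℂ) * ((1 : ℝ) : ℂ) - β) / 2 = (π / 2 - β) / 2 by push_cast; ring] at this

theorem E1_re : 0 < ((1 + Complex.sin β) / Complex.cos β).re := by
  rw [← half_ratio (half_ne h) (cos_ne h)]
  have hb1 : (β / 2).re = β.re / 2 := by simp
  have e2 : ((π : ℂ) / 4) = ((π / 4 : ℝ) : ℂ) := by push_cast; ring
  have hre : ((π : ℂ) / 4).re = π / 4 := by rw [e2, Complex.ofReal_re]
  have him : ((π : ℂ) / 4).im = 0 := by rw [e2, Complex.ofReal_im]
  have := ratio_re_pos (a := (π : ℂ) / 4) (b := β / 2) (by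
    rw [hre, him, hb1, show 2 * (π / 4) = π / 2 by ring, Real.cos_pi_div_two,
      show 2 * (β.re / 2) = β.re by ring, show 2 * (0:ℝ) = 0 by ring, Real.cosh_zero]
    have h1 := cx_pos h
    linarith)
  rwa [show (π : ℂ) / 4 - β / 2 = (π / 2 - β) / 2 by ring,
    show (π : ℂ) / 4 + β / 2 = (π / 2 + β) / 2 by ring] at this

theorem al_ne : Complex.cos (al β + β) ≠ 0 ∧
    Complex.cos (al β - β) / Complex.cos (al β + β) ∈ Complex.slitPlane := by
  have h1 := adm_chi h 1 ⟨zero_le_one, le_rfl⟩
  have := pi_ne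
  have ea : (2 * π * (al β / π) * ((1 : ℝ) : ℂ) - 2 * β) / 2 = al β - β := by
    push_cast; field_simp
  have eb : (2 * π * (al β / π) * ((1 : ℝ) : ℂ) + 2 * β) / 2 = al β + β := by
    push_cast; field_simp
  unfold QQ at h1
  simp only at h1
  rw [ea, eb] at h1
  exact ⟨h1.2.2, h1.2.1⟩

theorem al_ratio : Complex.cos (al β - β) / Complex.cos (al β + β) =
    ((1 + Complex.sin β) / Complex.cos β) ^ 2 := by
  have h1 := (al_ne h).1
  have h2 := cos_ne h
  have h3 := sin_al h
  rw [div_pow, div_eq_div_iff h1 (pow_ne_zero 2 h2), Complex.cos_sub, Complex.cos_add, h3]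
  linear_combination (Complex.cos (al β) * Complex.cos β * (1 + Complex.sin β)) *
    Complex.sin_sq_add_cos_sq β

theorem Lg_al : Lg (2 * al β) (2 * β) = 2 * gh (2 * β) := by
  unfold Lg gh
  rw [show (2 * al β - 2 * β) / 2 = al β - β by ring, show (2 * al β + 2 * β) / 2 = al β + β by ring,
    al_ratio h, log_sq' (E1_re h), mul_div_cancel_left₀ _ (two_ne_zero)]

theorem arctan_base : Complex.arctan (1 / Complex.cos β) = π / 2 - al β := by
  have h1 := al_re h
  have hs := sin_al_ne h
  have hw := cos_ne h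
  have hc := cos_al_ne h
  have hsin := sin_al h
  have hpi := Real.pi_pos
  have e : ((π : ℂ) / 2 - al β).re = π / 2 - (al β).re := by
    rw [Complex.sub_re, show (π : ℂ) / 2 = ((π / 2 : ℝ) : ℂ) by push_cast; ring, Complex.ofReal_re]
  have e2 : Complex.tan (π / 2 - al β) = 1 / Complex.cos β := by
    rw [Complex.tan_eq_sin_div_cos, Complex.sin_pi_div_two_sub, Complex.cos_pi_div_two_sub,
      div_eq_div_iff hs hw, hsin]
    ring
  rw [← e2, Complex.arctan_tan]
  · intro h0
    have : al β = 0 := by linear_combination -h0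
    rw [this, Complex.zero_re] at h1
    linarith
  · rw [e]; linarith
  · rw [e]; linarith

omit h in
theorem asn_zero' : Pool.Agent.Y472.asn 0 = 0 := by
  unfold Pool.Agent.Y472.asn
  simp

omit h in
theorem tzz_zero (χ : ℂ) : tzz 0 0 χ = 0 := by
  unfold tzz
  rw [zero_div, Complex.sin_zero, zero_mul, zero_div, neg_zero, asn_zero']

theorem dzz_base : dzz 0 0 (2 * β) = d0 β := by
  unfold dzz
  rw [tzz_zero, zero_div, Complex.cos_zero, mul_div_cancel_left₀ _ (two_ne_zero), mul_one, mul_one,
    arctan_base h, d0]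
  have := pi_ne
  field_simp

theorem wS_re : 0 < (Complex.cos β * Complex.sin (al β)).re := by
  obtain ⟨N, hN, -, h1, h2⟩ := NN h
  have hp := al_re h
  have hq := q_nn h
  have hw := wi_lt h
  have hw0 := wi_nn h
  have hpi := Real.pi_pos
  rw [Complex.mul_re, sin_re, sin_im]
  have c1 : 0 < Real.sin (al β).re := by
    apply Real.sin_pos_of_pos_of_lt_pi <;> linarith
  have c2 : 0 < Real.cos (al β).re :=
    Real.cos_pos_of_mem_Ioo ⟨by linarith, by linarith⟩
  have c3 := Real.one_le_cosh (al β).im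
  have c4 : 0 ≤ Real.sinh (al β).im := Real.sinh_nonneg_iff.2 hq
  have c5 := Real.cos_le_one (al β).re
  set sp := Real.sin (al β).re
  set cp := Real.cos (al β).re
  set X := Real.cosh (al β).im
  set Y := Real.sinh (al β).im
  set wr := (Complex.cos β).re
  set wi := (Complex.cos β).im
  have k1 : cp * Y ≤ Y * X := by nlinarith
  have k2 : Y * X < sp * cp := by rw [h1, h2]; exact mul_lt_mul_of_pos_left hw hN
  have k3 : sp * cp ≤ sp * X := by nlinarith
  have k4 : cp * Y < sp * X := by linarith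
  have k5 : 0 ≤ cp * Y := by positivity
  nlinarith

/-- the critical equation at the base point -/
theorem dcrit_base : Complex.log (2 * Complex.cos 0 + 2 * Complex.cos (2 * π * d0 β)) +
      Complex.log (2 * Complex.cos 0 + 2 * Complex.cos (2 * π * d0 β)) =
      Complex.log (2 * Complex.cos (2 * β) - 2 * Complex.cos (2 * π * d0 β)) +
      2 * Complex.log (2 * Complex.sin (π * d0 β)) := by
  have e0 : 2 * π * d0 β = π - 2 * al β := by linear_combination 2 * pi_d0 β
  have e1 : Complex.cos (2 * π * d0 β) = -Complex.cos (2 * al β) := by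
    rw [e0, Complex.cos_pi_sub]
  have e2 : Complex.sin (π * d0 β) = Complex.cos (al β) := by
    rw [pi_d0, Complex.sin_pi_div_two_sub]
  have s1 := sin_al h
  have s2 := Complex.sin_sq_add_cos_sq (al β)
  have f1 : 2 * Complex.cos 0 + 2 * Complex.cos (2 * π * d0 β) = (2 * Complex.sin (al β)) ^ 2 := by
    rw [e1, Complex.cos_zero, Complex.cos_two_mul]
    linear_combination (-4) * s2
  have f2 : 2 * Complex.cos (2 * β) - 2 * Complex.cos (2 * π * d0 β) =
      (2 * (Complex.cos β * Complex.sin (al β))) ^ 2 := by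
    rw [e1, Complex.cos_two_mul, Complex.cos_two_mul]
    linear_combination (-4 * (Complex.sin (al β) + Complex.cos β * Complex.cos (al β))) * s1 +
      (4 - 4 * Complex.cos β ^ 2) * s2
  have g1 : 0 < (2 * Complex.sin (al β)).re := by
    have := sin_al_re h
    simp only [Complex.mul_re, Complex.re_ofNat, Complex.im_ofNat, zero_mul, sub_zero]
    linarith
  have g2 : 0 < (2 * (Complex.cos β * Complex.sin (al β))).re := by
    have := wS_re h
    rw [Complex.mul_re 2]
    simp only [Complex.re_ofNat, Complex.im_ofNat, zero_mul, sub_zero]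
    linarith
  have g3 : 0 < (2 * Complex.cos (al β)).re := by
    have := cos_al_re h
    simp only [Complex.mul_re, Complex.re_ofNat, Complex.im_ofNat, zero_mul, sub_zero]
    linarith
  rw [f1, f2, e2, log_sq' g2]
  have g4 : (2 * Complex.sin (al β)) ^ 2 =
      (2 * (Complex.cos β * Complex.sin (al β))) * (2 * Complex.cos (al β)) := by
    linear_combination (4 * Complex.sin (al β)) * s1
  have a2 := Complex.abs_arg_lt_pi_div_two_iff.2 (Or.inl g2)
  have a3 := Complex.abs_arg_lt_pi_div_two_iff.2 (Or.inl g3)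
  rw [abs_lt] at a2 a3
  have n2 : (2 * (Complex.cos β * Complex.sin (al β))) ≠ 0 := by
    intro h0; rw [h0, Complex.zero_re] at g2; exact lt_irrefl _ g2
  have n3 : (2 * Complex.cos (al β)) ≠ 0 := by
    intro h0; rw [h0, Complex.zero_re] at g3; exact lt_irrefl _ g3
  rw [g4, Complex.log_mul n2 n3 ⟨by linarith, by linarith⟩]
  ring

end

end Pool.Agent.Y641.CG
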