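import Pool.Agent.Y641.CG.Ev3

/-! Derivatives of the exponent near the base point. -/

set_option autoImplicit false

namespace Pool.Agent.Y641.CG

open Filter Topology Metric MeasureTheory Set
open scoped Real ComplexConjugate
open Pool.Agent.W711.HT Pool.Agent.W398.HT
open Pool.Agent.Y472 (gh dzz tzz szz FF Fz)
open Pool.Agent.Y641.CB (an1 an2 an3)

noncomputable def dx1 : ℂ × ℂ × ℂ →L[ℂ] ℂ := ContinuousLinearMap.fst ℂ ℂ (ℂ × ℂ)
noncomputable def dx2 : ℂ × ℂ × ℂ →L[ℂ] ℂ :=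
  (ContinuousLinearMap.fst ℂ ℂ ℂ).comp (ContinuousLinearMap.snd ℂ ℂ (ℂ × ℂ))
noncomputable def dx3 : ℂ × ℂ × ℂ →L[ℂ] ℂ :=
  (ContinuousLinearMap.snd ℂ ℂ ℂ).comp (ContinuousLinearMap.snd ℂ ℂ (ℂ × ℂ))

theorem dx1_apply (v : ℂ × ℂ × ℂ) : dx1 v = v.1 := rfl
theorem dx2_apply (v : ℂ × ℂ × ℂ) : dx2 v = v.2.1 := rfl
theorem dx3_apply (v : ℂ × ℂ × ℂ) : dx3 v = v.2.2 := rfl

theorem hdx1 (p : ℂ × ℂ × ℂ) : HasFDerivAt (fun p : ℂ × ℂ × ℂ => p.1) dx1 p := dx1.hasFDerivAt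
theorem hdx2 (p : ℂ × ℂ × ℂ) : HasFDerivAt (fun p : ℂ × ℂ × ℂ => p.2.1) dx2 p := dx2.hasFDerivAt
theorem hdx3 (p : ℂ × ℂ × ℂ) : HasFDerivAt (fun p : ℂ × ℂ × ℂ => p.2.2) dx3 p := dx3.hasFDerivAt

/-- the derivative of the exponent -/
noncomputable def DD (p : ℂ × ℂ × ℂ) : ℂ × ℂ × ℂ →L[ℂ] ℂ :=
  (-(1 / (2 * π)) * Lg (2 * π * dz p) p.1) • dx1 + (-(1 / (2 * π)) * Lg (2 * π * dz p) p.2.1) • dx2 +
    (-(1 / (2 * π)) * Lg (π - 2 * π * dz p) p.2.2) • dx3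

theorem FF_eq (χ u : ℂ) : FF χ u = 2 * π * rrF (u / (2 * π)) (χ / 2) := by
  unfold FF rrF
  have := pi_ne
  have e : ∀ t : ℝ, (2 * π * (u / (2 * π)) * (t : ℂ)) = u * t := by
    intro t; field_simp
  simp only [e]
  field_simp

theorem FF_neg (χ u : ℂ) : FF χ (-u) = -FF χ u := by
  unfold FF
  simp only [neg_mul, Complex.cos_neg]

theorem szz_eq (p : ℂ × ℂ × ℂ) : szz p.1 p.2.1 p.2.2 = rrF (u1 p / (2 * π)) (p.2.2 / 2) +
    rrF (u2 p / (2 * π)) (p.2.2 / 2) + rrF (u3 p / (2 * π)) (p.2.2 / 2) +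
    rrF (u4 p / (2 * π)) (p.2.2 / 2) := by
  have hp := pi_ne
  have e1 := FF_eq p.2.2 (u1 p)
  have e2 := FF_eq p.2.2 (u2 p)
  have e3 := FF_eq p.2.2 (u3 p)
  have e4 := FF_eq p.2.2 (u4 p)
  have e : szz p.1 p.2.1 p.2.2 = (FF p.2.2 (u1 p) - FF p.2.2 (-u2 p) + FF p.2.2 (u3 p) -
      FF p.2.2 (-u4 p)) / (2 * π) := by
    unfold szz Fz u1 u2 u3 u4 b1 a1 b2 a2 tz
    simp only [neg_neg]
  rw [e, FF_neg, FF_neg, e1, e2, e3, e4]
  field_simp
  ring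

/-- composition with `rrF` -/
theorem rr_comp {a b : ℂ × ℂ × ℂ → ℂ} {a' b' : ℂ × ℂ × ℂ →L[ℂ] ℂ} {p : ℂ × ℂ × ℂ}
    (h : HasFDerivAt (fun p : ℂ × ℂ => rrF p.1 p.2) (rd (a p, b p)) (a p, b p))
    (ha : HasFDerivAt a a' p) (hb : HasFDerivAt b b' p) :
    HasFDerivAt (fun p => rrF (a p) (b p))
      (Complex.log (2 * Complex.cos (b p) + 2 * Complex.cos (2 * π * a p)) • a' +
        (-(1 / (2 * π)) * Lg (2 * π * a p) (b p)) • b') p := by
  have h1 : HasFDerivAt (fun p => (a p, b p)) (a'.prod b') p := ha.prodMk hb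
  have h2 := HasFDerivAt.comp (g := fun p : ℂ × ℂ => rrF p.1 p.2) p h h1
  refine h2.congr_fderiv ?_
  ext v <;> simp [rd]

section
variable {β : ℂ} (h : Rg β)
include h

theorem ev_u {u : ℂ × ℂ × ℂ → ℂ} (hu : AnalyticAt ℂ u (p0 β)) (hu0 : u (p0 β) = π / 2) :
    ∀ᶠ p in 𝓝 (p0 β), ∀ u' : ℂ × ℂ × ℂ →L[ℂ] ℂ, HasFDerivAt u u' p →
      HasFDerivAt (fun p => rrF (u p / (2 * π)) (p.2.2 / 2))
        ((ell u p / (2 * π)) • u' + (-(1 / (4 * π)) * Lg (u p) (p.2.2 / 2)) • dx3) p := by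
  have hp := pi_ne
  have ht : Tendsto (fun p : ℂ × ℂ × ℂ => (u p / (2 * π), p.2.2 / 2)) (𝓝 (p0 β)) (𝓝 (1 / 4, β)) := by
    have h1 : ContinuousAt (fun p : ℂ × ℂ × ℂ => (u p / (2 * π), p.2.2 / 2)) (p0 β) :=
      (hu.continuousAt.div_const _).prodMk (han3 _).continuousAt
    have h2 := h1.tendsto
    rw [hu0, half3, show (π : ℂ) / 2 / (2 * π) = 1 / 4 by field_simp; norm_num] at h2
    exact h2
  filter_upwards [ht.eventually (rrc (adm_half h))] with p hr u' hu'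
  have ha : HasFDerivAt (fun p => u p / (2 * π)) ((1 / (2 * π) : ℂ) • u') p := by
    have := hu'.mul_const (1 / (2 * π) : ℂ)
    refine this.congr_of_eventuallyEq (Eventually.of_forall fun q => ?_)
    simp only
    ring
  have hb : HasFDerivAt (fun p : ℂ × ℂ × ℂ => p.2.2 / 2) ((1 / 2 : ℂ) • dx3) p := by
    have := (hdx3 p).mul_const (1 / 2 : ℂ)
    refine this.congr_of_eventuallyEq (Eventually.of_forall fun q => ?_)
    simp only
    ring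
  have hr' : HasFDerivAt (fun p : ℂ × ℂ => rrF p.1 p.2) (rd (u p / (2 * π), p.2.2 / 2))
      (u p / (2 * π), p.2.2 / 2) := hr
  have key := rr_comp (a := fun p => u p / (2 * π)) (b := fun p => p.2.2 / 2) hr' ha hb
  refine key.congr_fderiv ?_
  rw [show 2 * π * (u p / (2 * π)) = u p by field_simp]
  ext v <;> simp [ell, dx3] <;> ring

theorem ev_szz : ∀ᶠ p in 𝓝 (p0 β),
    HasFDerivAt (fun p : ℂ × ℂ × ℂ => szz p.1 p.2.1 p.2.2) (DD p) p := by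
  have hp := pi_ne
  have ht : ∀ᶠ p in 𝓝 (p0 β), AnalyticAt ℂ tz p := (tz_an h).eventually_analyticAt
  filter_upwards [ev_u h (u1_an h) (u1_p0 β), ev_u h (u2_an h) (u2_p0 β), ev_u h (u3_an h) (u3_p0 β),
    ev_u h (u4_an h) (u4_p0 β), ev_stat h, ev_psi h, ev_psi' h, ev_chi h, ht] with
    p r1 r2 r3 r4 s1 s2 s3 s4 ht
  set T := fderiv ℂ tz p with hT
  have hT' : HasFDerivAt tz T p := ht.differentiableAt.hasFDerivAt
  have h1 : HasFDerivAt (fun p : ℂ × ℂ × ℂ => p.1 / 2) ((1 / 2 : ℂ) • dx1) p := by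
    have := (hdx1 p).mul_const (1 / 2 : ℂ)
    refine this.congr_of_eventuallyEq (Eventually.of_forall fun q => ?_)
    simp only
    ring
  have h2 : HasFDerivAt (fun p : ℂ × ℂ × ℂ => (π + p.2.1) / 2) ((1 / 2 : ℂ) • dx2) p := by
    have := ((hdx2 p).mul_const (1 / 2 : ℂ)).const_add (π / 2 : ℂ)
    refine this.congr_of_eventuallyEq (Eventually.of_forall fun q => ?_)
    simp only
    ring
  have h3 : HasFDerivAt (fun p : ℂ × ℂ × ℂ => (π - p.2.1) / 2) (-((1 / 2 : ℂ) • dx2)) p := by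
    have := ((hdx2 p).mul_const (1 / 2 : ℂ)).const_sub (π / 2 : ℂ)
    refine this.congr_of_eventuallyEq (Eventually.of_forall fun q => ?_)
    simp only
    ring
  have k1 : HasFDerivAt u1 (T + (1 / 2 : ℂ) • dx1 + (1 / 2 : ℂ) • dx2) p := (hT'.add h1).add h2
  have k2 : HasFDerivAt u2 (-(T + (1 / 2 : ℂ) • dx1 - (1 / 2 : ℂ) • dx2)) p :=
    ((hT'.add h1).sub h2).neg
  have k3 : HasFDerivAt u3 (T - (1 / 2 : ℂ) • dx1 + -((1 / 2 : ℂ) • dx2)) p := (hT'.sub h1).add h3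
  have k4 : HasFDerivAt u4 (-(T - (1 / 2 : ℂ) • dx1 - -((1 / 2 : ℂ) • dx2))) p :=
    ((hT'.sub h1).sub h3).neg
  have key := (((r1 _ k1).add (r2 _ k2)).add (r3 _ k3)).add (r4 _ k4)
  have key2 : HasFDerivAt (fun p : ℂ × ℂ × ℂ => szz p.1 p.2.1 p.2.2) _ p :=
    key.congr_of_eventuallyEq (Eventually.of_forall fun q => szz_eq q)
  refine key2.congr_fderiv ?_
  apply ContinuousLinearMap.ext
  intro v
  simp only [DD, add_apply, smul_apply, smul_eq_mul, dx1_apply, dx2_apply, dx3_apply, neg_apply,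
    sub_apply]
  linear_combination (T v / (2 * π)) * s1 + (v.1 / (4 * π)) * s2 + (v.2.1 / (4 * π)) * s3 -
    (v.2.2 / (4 * π)) * s4

/-- the exponent in terms of the critical value of `d / N` -/
noncomputable def sS (p : ℂ × ℂ × ℂ) : ℂ :=
  rrF (dz p) p.1 + rrF (dz p) p.2.1 + rrF (1 / 2 - dz p) p.2.2 - 2 * ssF (dz p)

theorem ev_sS : ∀ᶠ p in 𝓝 (p0 β), HasFDerivAt sS (DD p) p := by
  have hp := pi_ne
  have hd := dz_an h
  have t1 : Tendsto (fun p : ℂ × ℂ × ℂ => (dz p, p.1)) (𝓝 (p0 β)) (𝓝 (d0 β, 0)) := by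
    have h1 : ContinuousAt (fun p : ℂ × ℂ × ℂ => (dz p, p.1)) (p0 β) :=
      hd.continuousAt.prodMk (an1 _).continuousAt
    have h2 := h1.tendsto
    rw [dz_p0 h] at h2
    exact h2
  have t2 : Tendsto (fun p : ℂ × ℂ × ℂ => (dz p, p.2.1)) (𝓝 (p0 β)) (𝓝 (d0 β, 0)) := by
    have h1 : ContinuousAt (fun p : ℂ × ℂ × ℂ => (dz p, p.2.1)) (p0 β) :=
      hd.continuousAt.prodMk (an2 _).continuousAt
    have h2 := h1.tendsto
    rw [dz_p0 h] at h2
    exact h2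
  have t3 : Tendsto (fun p : ℂ × ℂ × ℂ => (1 / 2 - dz p, p.2.2)) (𝓝 (p0 β))
      (𝓝 (al β / π, 2 * β)) := by
    have h1 : ContinuousAt (fun p : ℂ × ℂ × ℂ => (1 / 2 - dz p, p.2.2)) (p0 β) :=
      (continuousAt_const.sub hd.continuousAt).prodMk (an3 _).continuousAt
    have h2 := h1.tendsto
    rw [dz_p0 h, d0, sub_sub_cancel] at h2
    exact h2
  have t4 : Tendsto dz (𝓝 (p0 β)) (𝓝 (d0 β)) := by
    have := hd.continuousAt.tendsto
    rwa [dz_p0 h] at this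
  filter_upwards [t1.eventually (rrc (adm_zero h)), t2.eventually (rrc (adm_zero h)),
    t3.eventually (rrc (adm_chi h)), t4.eventually (ssc (adm_S h)), hd.eventually_analyticAt,
    ev_dcrit h] with p r1 r2 r3 r4 hd' hc
  set D := fderiv ℂ dz p with hD
  have hD' : HasFDerivAt dz D p := hd'.differentiableAt.hasFDerivAt
  have k1 := rr_comp (a := dz) (b := fun p => p.1) r1 hD' (hdx1 p)
  have k2 := rr_comp (a := dz) (b := fun p => p.2.1) r2 hD' (hdx2 p)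
  have k3 := rr_comp (a := fun p => 1 / 2 - dz p) (b := fun p => p.2.2) r3
    (hD'.const_sub (1 / 2 : ℂ)) (hdx3 p)
  have k4 : HasFDerivAt (fun p => ssF (dz p)) (Complex.log (2 * Complex.sin (π * dz p)) • D) p :=
    HasDerivAt.comp_hasFDerivAt (h₂ := ssF) p r4 hD'
  have key := ((k1.add k2).add k3).sub (k4.const_mul 2)
  have key2 : HasFDerivAt sS _ p := key
  refine key2.congr_fderiv ?_
  have e1 : (2 * π * (1 / 2 - dz p) : ℂ) = π - 2 * π * dz p := by ring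
  apply ContinuousLinearMap.ext
  intro v
  simp only [DD, add_apply, smul_apply, smul_eq_mul, dx1_apply, dx2_apply, dx3_apply, neg_apply,
    sub_apply]
  rw [e1, Complex.cos_pi_sub, show (2 * Complex.cos p.2.2 + 2 * -Complex.cos (2 * π * dz p) : ℂ) =
      2 * Complex.cos p.2.2 - 2 * Complex.cos (2 * π * dz p) by ring]
  linear_combination (D v) * hc

end

end Pool.Agent.Y641.CG
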