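import Pool.Agent.Y641.CG.Tz

/-! Equations of logarithms near the base point. -/

set_option autoImplicit false

namespace Pool.Agent.Y641.CG

open Filter Topology Metric MeasureTheory Set
open scoped Real ComplexConjugate
open Pool.Agent.W711.HT Pool.Agent.W398.HT
open Pool.Agent.Y472 (gh dzz tzz szz)
open Pool.Agent.Y641.CB (an1 an2 an3)

theorem ev_zero {f : ℂ × ℂ × ℂ → ℂ} {p : ℂ × ℂ × ℂ} (hc : AnalyticAt ℂ f p) (h0 : f p = 0)
    (he : ∀ᶠ q in 𝓝 p, Complex.exp (f q) = 1) : ∀ᶠ q in 𝓝 p, f q = 0 := by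
  have h1 : ∀ᶠ q in 𝓝 p, ‖f q‖ < 1 := by
    apply hc.continuousAt.norm.eventually_lt_const
    change ‖f p‖ < 1
    rw [h0]; simp
  filter_upwards [h1, he] with q h1 h2
  exact Pool.Agent.W177.HT.eq_zero_of_exp _ h2 h1

theorem Lg_an {u z : ℂ × ℂ × ℂ → ℂ} {p : ℂ × ℂ × ℂ} (hu : AnalyticAt ℂ u p) (hz : AnalyticAt ℂ z p)
    (h1 : Complex.cos ((u p + z p) / 2) ≠ 0)
    (h3 : Complex.cos ((u p - z p) / 2) / Complex.cos ((u p + z p) / 2) ∈ Complex.slitPlane) :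
    AnalyticAt ℂ (fun p => Lg (u p) (z p)) p := by
  unfold Lg
  have k1 : AnalyticAt ℂ (fun p => Complex.cos ((u p - z p) / 2)) p :=
    Complex.analyticAt_cos.fun_comp ((hu.sub hz).div analyticAt_const two_ne_zero)
  have k2 : AnalyticAt ℂ (fun p => Complex.cos ((u p + z p) / 2)) p :=
    Complex.analyticAt_cos.fun_comp ((hu.add hz).div analyticAt_const two_ne_zero)
  exact AnalyticAt.clog (k1.fun_div k2 h1) h3

theorem exp_Lg {u z : ℂ} (h1 : Complex.cos ((u + z) / 2) ≠ 0) (h2 : Complex.cos ((u - z) / 2) ≠ 0) :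
    Complex.exp (Lg u z) = Complex.cos ((u - z) / 2) / Complex.cos ((u + z) / 2) := by
  unfold Lg
  rw [Complex.exp_log (div_ne_zero h2 h1)]

/-! ### trigonometric identities -/

theorem psi_eq {ψ ψ' t w : ℂ} (hw : w ≠ 0)
    (h : w * Complex.sin t = -(Complex.sin (ψ / 2) * Complex.sin (ψ' / 2))) :
    ((2 * w + 2 * Complex.cos (b1 ψ ψ' t)) * (2 * w + 2 * Complex.cos (a2 ψ ψ' t))) *
      (w * Complex.cos t + Complex.cos (ψ' / 2) * Complex.sin (ψ / 2)) ^ 2 =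
    ((2 * w + 2 * Complex.cos (a1 ψ ψ' t)) * (2 * w + 2 * Complex.cos (b2 ψ ψ' t))) *
      (w * Complex.cos t - Complex.cos (ψ' / 2) * Complex.sin (ψ / 2)) ^ 2 := by
  have e1 := Complex.cos_sq_add_sin_sq t
  have e2 := Complex.cos_sq_add_sin_sq (ψ / 2)
  have e3 := Complex.cos_sq_add_sin_sq (ψ' / 2)
  rw [cos_b1, cos_b2, cos_a1, cos_a2]
  have k1 := alg_psi1 e1 e2 e3 h
  have k2 := alg_psi2 e1 e2 e3 h
  have hw2 : w ^ 2 ≠ 0 := pow_ne_zero 2 hw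
  apply mul_left_cancel₀ hw2
  set A := w * Complex.cos t + Complex.cos (ψ' / 2) * Complex.sin (ψ / 2)
  set B := w * Complex.cos t - Complex.cos (ψ' / 2) * Complex.sin (ψ / 2)
  linear_combination A ^ 2 * k1 - B ^ 2 * k2

theorem psi_eq' {ψ ψ' t w : ℂ} (hw : w ≠ 0)
    (h : w * Complex.sin t = -(Complex.sin (ψ / 2) * Complex.sin (ψ' / 2))) :
    ((2 * w + 2 * Complex.cos (b1 ψ ψ' t)) * (2 * w + 2 * Complex.cos (a1 ψ ψ' t))) *
      (w * Complex.cos t + Complex.cos (ψ / 2) * Complex.sin (ψ' / 2)) ^ 2 =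
    ((2 * w + 2 * Complex.cos (a2 ψ ψ' t)) * (2 * w + 2 * Complex.cos (b2 ψ ψ' t))) *
      (w * Complex.cos t - Complex.cos (ψ / 2) * Complex.sin (ψ' / 2)) ^ 2 := by
  have h1 := psi_eq (ψ := ψ') (ψ' := ψ) (t := t) hw (by rw [h]; ring)
  have e1 : b1 ψ' ψ t = b1 ψ ψ' t := by unfold b1; ring
  have e2 : b2 ψ' ψ t = b2 ψ ψ' t := by unfold b2; ring
  have e3 : a1 ψ' ψ t = a2 ψ ψ' t := by unfold a1 a2; ring
  have e4 : a2 ψ' ψ t = a1 ψ ψ' t := by unfold a1 a2; ring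
  rw [e1, e2, e3, e4] at h1
  exact h1

theorem stat_eq {ψ ψ' t w : ℂ}
    (h : w * Complex.sin t = -(Complex.sin (ψ / 2) * Complex.sin (ψ' / 2))) :
    (2 * w + 2 * Complex.cos (b1 ψ ψ' t)) * (2 * w + 2 * Complex.cos (b2 ψ ψ' t)) =
    (2 * w + 2 * Complex.cos (a1 ψ ψ' t)) * (2 * w + 2 * Complex.cos (a2 ψ ψ' t)) := by
  have e1 := Complex.cos_sq_add_sin_sq t
  rw [cos_b1, cos_b2, cos_a1, cos_a2]
  exact alg_stat e1 h

theorem two_cos_mul (x y : ℂ) : 2 * (Complex.cos x * Complex.cos y) =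
    Complex.cos (x + y) + Complex.cos (x - y) := by
  rw [Complex.cos_add, Complex.cos_sub]; ring

theorem chi_eq1 {ψ ψ' t z : ℂ}
    (h : Complex.cos z * Complex.sin t = -(Complex.sin (ψ / 2) * Complex.sin (ψ' / 2))) :
    4 * ((Complex.cos ((b1 ψ ψ' t - z) / 2) * Complex.cos ((-a1 ψ ψ' t - z) / 2)) *
      (Complex.cos ((b2 ψ ψ' t - z) / 2) * Complex.cos ((-a2 ψ ψ' t - z) / 2))) =
    (Complex.cos (ψ / 2) * Complex.cos (ψ' / 2) + Complex.sin z * Complex.cos t) ^ 2 := by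
  have e1 := Complex.cos_sq_add_sin_sq t
  have e2 := Complex.cos_sq_add_sin_sq (ψ / 2)
  have e3 := Complex.cos_sq_add_sin_sq (ψ' / 2)
  have e4 := Complex.cos_sq_add_sin_sq z
  have k := alg_chi1 e1 e2 e3 h e4
  rw [← k]
  have f1 := two_cos_mul ((b1 ψ ψ' t - z) / 2) ((-a1 ψ ψ' t - z) / 2)
  have f2 := two_cos_mul ((b2 ψ ψ' t - z) / 2) ((-a2 ψ ψ' t - z) / 2)
  have g1 : Complex.cos ((b1 ψ ψ' t - z) / 2 + (-a1 ψ ψ' t - z) / 2) =
      Complex.sin z * Complex.cos (ψ' / 2) - Complex.cos z * Complex.sin (ψ' / 2) := by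
    rw [← Complex.sin_sub, ← Complex.cos_pi_div_two_sub]
    congr 1; unfold b1 a1; ring
  have g2 : Complex.cos ((b1 ψ ψ' t - z) / 2 - (-a1 ψ ψ' t - z) / 2) =
      Complex.cos t * Complex.cos (ψ / 2) - Complex.sin t * Complex.sin (ψ / 2) := by
    rw [← Complex.cos_add]
    congr 1; unfold b1 a1; ring
  have g3 : Complex.cos ((b2 ψ ψ' t - z) / 2 + (-a2 ψ ψ' t - z) / 2) =
      Complex.sin z * Complex.cos (ψ' / 2) + Complex.cos z * Complex.sin (ψ' / 2) := by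
    rw [← Complex.sin_add, ← Complex.cos_pi_div_two_sub]
    congr 1; unfold b2 a2; ring
  have g4 : Complex.cos ((b2 ψ ψ' t - z) / 2 - (-a2 ψ ψ' t - z) / 2) =
      Complex.cos t * Complex.cos (ψ / 2) + Complex.sin t * Complex.sin (ψ / 2) := by
    rw [← Complex.cos_sub]
    congr 1; unfold b2 a2; ring
  rw [g1, g2] at f1
  rw [g3, g4] at f2
  linear_combination (2 * (Complex.cos ((b2 ψ ψ' t - z) / 2) * Complex.cos ((-a2 ψ ψ' t - z) / 2))) * f1 +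
    (Complex.cos t * Complex.cos (ψ / 2) - Complex.sin t * Complex.sin (ψ / 2) +
      (Complex.sin z * Complex.cos (ψ' / 2) - Complex.cos z * Complex.sin (ψ' / 2))) * f2

theorem chi_eq2 {ψ ψ' t z : ℂ}
    (h : Complex.cos z * Complex.sin t = -(Complex.sin (ψ / 2) * Complex.sin (ψ' / 2))) :
    4 * ((Complex.cos ((b1 ψ ψ' t + z) / 2) * Complex.cos ((-a1 ψ ψ' t + z) / 2)) *
      (Complex.cos ((b2 ψ ψ' t + z) / 2) * Complex.cos ((-a2 ψ ψ' t + z) / 2))) =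
    (Complex.cos (ψ / 2) * Complex.cos (ψ' / 2) - Complex.sin z * Complex.cos t) ^ 2 := by
  have h1 := chi_eq1 (ψ := ψ) (ψ' := ψ') (t := t) (z := -z) (by rw [Complex.cos_neg]; exact h)
  rw [Complex.sin_neg] at h1
  simp only [sub_neg_eq_add] at h1
  rw [h1]; ring

end Pool.Agent.Y641.CG
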