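import Pool.Agent.Y641.CG.Ev

/-! Equations of logarithms near the base point, part 2. -/

set_option autoImplicit false

namespace Pool.Agent.Y641.CG

open Filter Topology Metric MeasureTheory Set
open scoped Real ComplexConjugate
open Pool.Agent.W711.HT Pool.Agent.W398.HT
open Pool.Agent.Y472 (gh dzz tzz szz)
open Pool.Agent.Y641.CB (an1 an2 an3)

noncomputable def u1 (p : ℂ × ℂ × ℂ) : ℂ := b1 p.1 p.2.1 (tz p)
noncomputable def u2 (p : ℂ × ℂ × ℂ) : ℂ := -a1 p.1 p.2.1 (tz p)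
noncomputable def u3 (p : ℂ × ℂ × ℂ) : ℂ := b2 p.1 p.2.1 (tz p)
noncomputable def u4 (p : ℂ × ℂ × ℂ) : ℂ := -a2 p.1 p.2.1 (tz p)

/-- `log (2 cos (χ / 2) + 2 cos u)` -/
noncomputable def ell (u : ℂ × ℂ × ℂ → ℂ) (p : ℂ × ℂ × ℂ) : ℂ :=
  Complex.log (2 * Complex.cos (p.2.2 / 2) + 2 * Complex.cos (u p))

theorem u1_p0 (β : ℂ) : u1 (p0 β) = π / 2 := by rw [u1, tz_p0]; simp [b1, p0]
theorem u2_p0 (β : ℂ) : u2 (p0 β) = π / 2 := by rw [u2, tz_p0]; simp [a1, p0]
theorem u3_p0 (β : ℂ) : u3 (p0 β) = π / 2 := by rw [u3, tz_p0]; simp [b2, p0]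
theorem u4_p0 (β : ℂ) : u4 (p0 β) = π / 2 := by rw [u4, tz_p0]; simp [a2, p0]

section
variable {β : ℂ} (h : Rg β)
include h

theorem u1_an : AnalyticAt ℂ u1 (p0 β) := by
  unfold u1 b1
  exact ((tz_an h).add (han1 _)).add ((analyticAt_const.add (an2 _)).div analyticAt_const two_ne_zero)

theorem u2_an : AnalyticAt ℂ u2 (p0 β) := by
  unfold u2 a1
  exact (((tz_an h).add (han1 _)).sub ((analyticAt_const.add (an2 _)).div analyticAt_const
    two_ne_zero)).neg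

theorem u3_an : AnalyticAt ℂ u3 (p0 β) := by
  unfold u3 b2
  exact ((tz_an h).sub (han1 _)).add ((analyticAt_const.sub (an2 _)).div analyticAt_const two_ne_zero)

theorem u4_an : AnalyticAt ℂ u4 (p0 β) := by
  unfold u4 a2
  exact (((tz_an h).sub (han1 _)).sub ((analyticAt_const.sub (an2 _)).div analyticAt_const
    two_ne_zero)).neg

omit h in
theorem ell_arg_an {u : ℂ × ℂ × ℂ → ℂ} (hu : AnalyticAt ℂ u (p0 β)) :
    AnalyticAt ℂ (fun p => 2 * Complex.cos (p.2.2 / 2) + 2 * Complex.cos (u p)) (p0 β) :=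
  (analyticAt_const.mul (Complex.analyticAt_cos.fun_comp (han3 _))).add
    (analyticAt_const.mul (Complex.analyticAt_cos.fun_comp hu))

omit h in
theorem ell_arg_p0 {u : ℂ × ℂ × ℂ → ℂ} (hu : u (p0 β) = π / 2) :
    2 * Complex.cos ((p0 β).2.2 / 2) + 2 * Complex.cos (u (p0 β)) = 2 * Complex.cos β := by
  rw [half3, hu, Complex.cos_pi_div_two, mul_zero, add_zero]

theorem two_w_re : 0 < (2 * Complex.cos β).re := by
  have := wr_pos h
  simp only [Complex.mul_re, Complex.re_ofNat, Complex.im_ofNat, zero_mul, sub_zero]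
  linarith

theorem ell_an {u : ℂ × ℂ × ℂ → ℂ} (hu : AnalyticAt ℂ u (p0 β)) (hu0 : u (p0 β) = π / 2) :
    AnalyticAt ℂ (ell u) (p0 β) := by
  unfold ell
  apply (ell_arg_an hu).clog
  rw [ell_arg_p0 hu0, Complex.mem_slitPlane_iff]
  left; exact two_w_re h

omit h in
theorem ell_p0 {u : ℂ × ℂ × ℂ → ℂ} (hu0 : u (p0 β) = π / 2) : ell u (p0 β) =
    Complex.log (2 * Complex.cos β) := by rw [ell, ell_arg_p0 hu0]

theorem ell_ne {u : ℂ × ℂ × ℂ → ℂ} (hu : AnalyticAt ℂ u (p0 β)) (hu0 : u (p0 β) = π / 2) :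
    ∀ᶠ p in 𝓝 (p0 β), 2 * Complex.cos (p.2.2 / 2) + 2 * Complex.cos (u p) ≠ 0 := by
  apply (ell_arg_an hu).continuousAt.eventually_ne
  rw [ell_arg_p0 hu0]
  exact mul_ne_zero two_ne_zero (cos_ne h)

/-- stationarity -/
theorem ev_stat : ∀ᶠ p in 𝓝 (p0 β), ell u1 p - ell u2 p + ell u3 p - ell u4 p = 0 := by
  apply ev_zero
  · exact (((ell_an h (u1_an h) (u1_p0 β)).sub (ell_an h (u2_an h) (u2_p0 β))).add
      (ell_an h (u3_an h) (u3_p0 β))).sub (ell_an h (u4_an h) (u4_p0 β))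
  · rw [ell_p0 (u1_p0 β), ell_p0 (u2_p0 β), ell_p0 (u3_p0 β), ell_p0 (u4_p0 β)]; ring
  · filter_upwards [ell_ne h (u1_an h) (u1_p0 β), ell_ne h (u2_an h) (u2_p0 β),
      ell_ne h (u3_an h) (u3_p0 β), ell_ne h (u4_an h) (u4_p0 β), ev_rel h] with p n1 n2 n3 n4 hr
    obtain ⟨-, -, h1, -, -⟩ := hr
    have k := stat_eq (ψ := p.1) (ψ' := p.2.1) (t := tz p) h1
    unfold ell
    rw [Complex.exp_sub, Complex.exp_add, Complex.exp_sub, Complex.exp_log n1, Complex.exp_log n2,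
      Complex.exp_log n3, Complex.exp_log n4]
    unfold u1 u2 u3 u4 at *
    rw [Complex.cos_neg] at n2 n4 ⊢
    rw [Complex.cos_neg]
    set L1 := 2 * Complex.cos (p.2.2 / 2) + 2 * Complex.cos (b1 p.1 p.2.1 (tz p))
    set L2 := 2 * Complex.cos (p.2.2 / 2) + 2 * Complex.cos (a1 p.1 p.2.1 (tz p))
    set L3 := 2 * Complex.cos (p.2.2 / 2) + 2 * Complex.cos (b2 p.1 p.2.1 (tz p))
    set L4 := 2 * Complex.cos (p.2.2 / 2) + 2 * Complex.cos (a2 p.1 p.2.1 (tz p))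
    field_simp
    linear_combination k

theorem lg1 {l : ℂ × ℂ × ℂ → ℂ} (hl : AnalyticAt ℂ l (p0 β)) (hl0 : l (p0 β) = 0) :
    AnalyticAt ℂ (fun p => Lg (2 * π * dz p) (l p)) (p0 β) ∧ Lg (2 * π * dz (p0 β)) (l (p0 β)) = 0 ∧
    ∀ᶠ p in 𝓝 (p0 β), Complex.cos ((2 * π * dz p + l p) / 2) ≠ 0 ∧
      Complex.cos ((2 * π * dz p - l p) / 2) ≠ 0 := by
  have e1 : Complex.cos ((2 * π * dz (p0 β) + l (p0 β)) / 2) = Complex.sin (al β) := by
    rw [hl0, add_zero, dz_p0 h, show 2 * π * d0 β / 2 = π * d0 β by ring, pi_d0,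
      Complex.cos_pi_div_two_sub]
  have e2 : Complex.cos ((2 * π * dz (p0 β) - l (p0 β)) / 2) = Complex.sin (al β) := by
    rw [hl0, sub_zero, dz_p0 h, show 2 * π * d0 β / 2 = π * d0 β by ring, pi_d0,
      Complex.cos_pi_div_two_sub]
  have hs := sin_al_ne h
  have hd := dz_an h
  have hu : AnalyticAt ℂ (fun p => 2 * π * dz p) (p0 β) := analyticAt_const.mul hd
  refine ⟨?_, ?_, ?_⟩
  · apply Lg_an hu hl
    · rw [e1]; exact hs
    · rw [e1, e2, div_self hs]; exact Complex.one_mem_slitPlane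
  · unfold Lg
    rw [e1, e2, div_self hs, Complex.log_one]
  · have c1 : ContinuousAt (fun p => Complex.cos ((2 * π * dz p + l p) / 2)) (p0 β) :=
      (Complex.analyticAt_cos.fun_comp ((hu.add hl).div analyticAt_const two_ne_zero)).continuousAt
    have c2 : ContinuousAt (fun p => Complex.cos ((2 * π * dz p - l p) / 2)) (p0 β) :=
      (Complex.analyticAt_cos.fun_comp ((hu.sub hl).div analyticAt_const two_ne_zero)).continuousAt
    exact (c1.eventually_ne (by rw [e1]; exact hs)).and (c2.eventually_ne (by rw [e2]; exact hs))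

theorem ev_psi : ∀ᶠ p in 𝓝 (p0 β), ell u1 p - ell u2 p - ell u3 p + ell u4 p +
    2 * Lg (2 * π * dz p) p.1 = 0 := by
  obtain ⟨g1, g2, g3⟩ := lg1 h (an1 (p0 β)) rfl
  apply ev_zero
  · exact ((((ell_an h (u1_an h) (u1_p0 β)).sub (ell_an h (u2_an h) (u2_p0 β))).sub
      (ell_an h (u3_an h) (u3_p0 β))).add (ell_an h (u4_an h) (u4_p0 β))).add (analyticAt_const.mul g1)
  · rw [ell_p0 (u1_p0 β), ell_p0 (u2_p0 β), ell_p0 (u3_p0 β), ell_p0 (u4_p0 β), g2]; ring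
  · have hP : ∀ᶠ p : ℂ × ℂ × ℂ in 𝓝 (p0 β), Complex.cos (p.2.2 / 2) * Complex.cos (tz p) -
        Complex.cos (p.2.1 / 2) * Complex.sin (p.1 / 2) ≠ 0 := by
      have : ContinuousAt (fun p : ℂ × ℂ × ℂ => Complex.cos (p.2.2 / 2) * Complex.cos (tz p) -
        Complex.cos (p.2.1 / 2) * Complex.sin (p.1 / 2)) (p0 β) :=
        (((Complex.analyticAt_cos.fun_comp (han3 _)).mul (Complex.analyticAt_cos.fun_comp (tz_an h))).sub
        ((Complex.analyticAt_cos.fun_comp (han2 _)).mul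
          (Complex.analyticAt_sin.fun_comp (han1 _)))).continuousAt
      apply this.eventually_ne
      rw [half3, tz_p0, Complex.cos_zero, mul_one]
      simpa [p0] using cos_ne h
    filter_upwards [ell_ne h (u1_an h) (u1_p0 β), ell_ne h (u2_an h) (u2_p0 β),
      ell_ne h (u3_an h) (u3_p0 β), ell_ne h (u4_an h) (u4_p0 β), ev_rel h, g3, hP] with
      p n1 n2 n3 n4 hr g3 hP
    obtain ⟨h0, h00, h1, h2, h3⟩ := hr
    obtain ⟨r2, r1⟩ := g3
    have k := psi_eq (ψ := p.1) (ψ' := p.2.1) (t := tz p) h0 h1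
    have k2 : Complex.cos ((2 * π * dz p - p.1) / 2) * (Complex.cos (p.2.2 / 2) * Complex.cos (tz p) -
        Complex.cos (p.2.1 / 2) * Complex.sin (p.1 / 2)) =
        Complex.cos ((2 * π * dz p + p.1) / 2) * (Complex.cos (p.2.2 / 2) * Complex.cos (tz p) +
        Complex.cos (p.2.1 / 2) * Complex.sin (p.1 / 2)) := by
      rw [show (2 * π * dz p - p.1) / 2 = π * dz p - p.1 / 2 by ring,
        show (2 * π * dz p + p.1) / 2 = π * dz p + p.1 / 2 by ring, Complex.cos_sub, Complex.cos_add]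
      linear_combination (2 * Complex.sin (p.1 / 2)) * h3
    unfold ell
    rw [Complex.exp_add, Complex.exp_add, Complex.exp_sub, Complex.exp_sub, Complex.exp_log n1,
      Complex.exp_log n2, Complex.exp_log n3, Complex.exp_log n4,
      show 2 * Lg (2 * π * dz p) p.1 = ((2 : ℕ) : ℂ) * Lg (2 * π * dz p) p.1 by push_cast; ring,
      Complex.exp_nat_mul, exp_Lg r2 r1]
    unfold u1 u2 u3 u4 at *
    rw [Complex.cos_neg] at n2 n4 ⊢
    rw [Complex.cos_neg]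
    set R1 := Complex.cos ((2 * π * dz p - p.1) / 2)
    set R2 := Complex.cos ((2 * π * dz p + p.1) / 2)
    set Pm := Complex.cos (p.2.2 / 2) * Complex.cos (tz p) - Complex.cos (p.2.1 / 2) * Complex.sin (p.1 / 2)
    set Pp := Complex.cos (p.2.2 / 2) * Complex.cos (tz p) + Complex.cos (p.2.1 / 2) * Complex.sin (p.1 / 2)
    set L1 := 2 * Complex.cos (p.2.2 / 2) + 2 * Complex.cos (b1 p.1 p.2.1 (tz p))
    set L2 := 2 * Complex.cos (p.2.2 / 2) + 2 * Complex.cos (a1 p.1 p.2.1 (tz p))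
    set L3 := 2 * Complex.cos (p.2.2 / 2) + 2 * Complex.cos (b2 p.1 p.2.1 (tz p))
    set L4 := 2 * Complex.cos (p.2.2 / 2) + 2 * Complex.cos (a2 p.1 p.2.1 (tz p))
    have key : L1 * L4 * R1 ^ 2 = L2 * L3 * R2 ^ 2 := by
      apply mul_right_cancel₀ (pow_ne_zero 2 hP)
      linear_combination (L1 * L4 * (R1 * Pm + R2 * Pp)) * k2 + R2 ^ 2 * k
    field_simp
    linear_combination key

theorem ev_psi' : ∀ᶠ p in 𝓝 (p0 β), ell u1 p + ell u2 p - ell u3 p - ell u4 p +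
    2 * Lg (2 * π * dz p) p.2.1 = 0 := by
  obtain ⟨g1, g2, g3⟩ := lg1 h (an2 (p0 β)) rfl
  apply ev_zero
  · exact ((((ell_an h (u1_an h) (u1_p0 β)).add (ell_an h (u2_an h) (u2_p0 β))).sub
      (ell_an h (u3_an h) (u3_p0 β))).sub (ell_an h (u4_an h) (u4_p0 β))).add (analyticAt_const.mul g1)
  · rw [ell_p0 (u1_p0 β), ell_p0 (u2_p0 β), ell_p0 (u3_p0 β), ell_p0 (u4_p0 β), g2]; ring
  · have hP : ∀ᶠ p : ℂ × ℂ × ℂ in 𝓝 (p0 β), Complex.cos (p.2.2 / 2) * Complex.cos (tz p) -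
        Complex.cos (p.1 / 2) * Complex.sin (p.2.1 / 2) ≠ 0 := by
      have : ContinuousAt (fun p : ℂ × ℂ × ℂ => Complex.cos (p.2.2 / 2) * Complex.cos (tz p) -
        Complex.cos (p.1 / 2) * Complex.sin (p.2.1 / 2)) (p0 β) :=
        (((Complex.analyticAt_cos.fun_comp (han3 _)).mul (Complex.analyticAt_cos.fun_comp (tz_an h))).sub
        ((Complex.analyticAt_cos.fun_comp (han1 _)).mul
          (Complex.analyticAt_sin.fun_comp (han2 _)))).continuousAt
      apply this.eventually_ne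
      rw [half3, tz_p0, Complex.cos_zero, mul_one]
      simpa [p0] using cos_ne h
    filter_upwards [ell_ne h (u1_an h) (u1_p0 β), ell_ne h (u2_an h) (u2_p0 β),
      ell_ne h (u3_an h) (u3_p0 β), ell_ne h (u4_an h) (u4_p0 β), ev_rel h, g3, hP] with
      p n1 n2 n3 n4 hr g3 hP
    obtain ⟨h0, h00, h1, h2, h3⟩ := hr
    obtain ⟨r2, r1⟩ := g3
    have k := psi_eq' (ψ := p.1) (ψ' := p.2.1) (t := tz p) h0 h1
    have k2 : Complex.cos ((2 * π * dz p - p.2.1) / 2) * (Complex.cos (p.2.2 / 2) * Complex.cos (tz p) -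
        Complex.cos (p.1 / 2) * Complex.sin (p.2.1 / 2)) =
        Complex.cos ((2 * π * dz p + p.2.1) / 2) * (Complex.cos (p.2.2 / 2) * Complex.cos (tz p) +
        Complex.cos (p.1 / 2) * Complex.sin (p.2.1 / 2)) := by
      rw [show (2 * π * dz p - p.2.1) / 2 = π * dz p - p.2.1 / 2 by ring,
        show (2 * π * dz p + p.2.1) / 2 = π * dz p + p.2.1 / 2 by ring, Complex.cos_sub, Complex.cos_add]
      linear_combination (2 * Complex.sin (p.2.1 / 2)) * h3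
    unfold ell
    rw [Complex.exp_add, Complex.exp_sub, Complex.exp_sub, Complex.exp_add, Complex.exp_log n1,
      Complex.exp_log n2, Complex.exp_log n3, Complex.exp_log n4,
      show 2 * Lg (2 * π * dz p) p.2.1 = ((2 : ℕ) : ℂ) * Lg (2 * π * dz p) p.2.1 by push_cast; ring,
      Complex.exp_nat_mul, exp_Lg r2 r1]
    unfold u1 u2 u3 u4 at *
    rw [Complex.cos_neg] at n2 n4 ⊢
    rw [Complex.cos_neg]
    set R1 := Complex.cos ((2 * π * dz p - p.2.1) / 2)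
    set R2 := Complex.cos ((2 * π * dz p + p.2.1) / 2)
    set Pm := Complex.cos (p.2.2 / 2) * Complex.cos (tz p) - Complex.cos (p.1 / 2) * Complex.sin (p.2.1 / 2)
    set Pp := Complex.cos (p.2.2 / 2) * Complex.cos (tz p) + Complex.cos (p.1 / 2) * Complex.sin (p.2.1 / 2)
    set L1 := 2 * Complex.cos (p.2.2 / 2) + 2 * Complex.cos (b1 p.1 p.2.1 (tz p))
    set L2 := 2 * Complex.cos (p.2.2 / 2) + 2 * Complex.cos (a1 p.1 p.2.1 (tz p))
    set L3 := 2 * Complex.cos (p.2.2 / 2) + 2 * Complex.cos (b2 p.1 p.2.1 (tz p))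
    set L4 := 2 * Complex.cos (p.2.2 / 2) + 2 * Complex.cos (a2 p.1 p.2.1 (tz p))
    have key : L1 * L2 * R1 ^ 2 = L4 * L3 * R2 ^ 2 := by
      apply mul_right_cancel₀ (pow_ne_zero 2 hP)
      linear_combination (L1 * L2 * (R1 * Pm + R2 * Pp)) * k2 + R2 ^ 2 * k
    field_simp
    linear_combination key

end

end Pool.Agent.Y641.CG
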