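import Pool.Agent.Y641.CG.Ev2

/-! Equations of logarithms near the base point, part 3. -/

set_option autoImplicit false

namespace Pool.Agent.Y641.CG

open Filter Topology Metric MeasureTheory Set
open scoped Real ComplexConjugate
open Pool.Agent.W711.HT Pool.Agent.W398.HT
open Pool.Agent.Y472 (gh dzz tzz szz)
open Pool.Agent.Y641.CB (an1 an2 an3)

section
variable {β : ℂ} (h : Rg β)
include h

theorem lgu {u : ℂ × ℂ × ℂ → ℂ} (hu : AnalyticAt ℂ u (p0 β)) (hu0 : u (p0 β) = π / 2) :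
    AnalyticAt ℂ (fun p => Lg (u p) (p.2.2 / 2)) (p0 β) ∧
    Lg (u (p0 β)) ((p0 β).2.2 / 2) = gh (2 * β) ∧
    ∀ᶠ p in 𝓝 (p0 β), Complex.cos ((u p + p.2.2 / 2) / 2) ≠ 0 ∧
      Complex.cos ((u p - p.2.2 / 2) / 2) ≠ 0 := by
  have hs := half_slit h
  have h1 := half_ne h
  have h2 : Complex.cos ((π / 2 - β) / 2) ≠ 0 := by
    intro h0
    rw [h0, zero_div] at hs
    exact Complex.slitPlane_ne_zero hs rfl
  have e1 : (u (p0 β) + (p0 β).2.2 / 2) / 2 = (π / 2 + β) / 2 := by rw [half3, hu0]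
  have e2 : (u (p0 β) - (p0 β).2.2 / 2) / 2 = (π / 2 - β) / 2 := by rw [half3, hu0]
  refine ⟨?_, ?_, ?_⟩
  · apply Lg_an hu (han3 _)
    · rw [e1]; exact h1
    · rw [e1, e2]; exact hs
  · rw [half3, hu0]; exact Lg_half h1 (cos_ne h)
  · have c1 : ContinuousAt (fun p => Complex.cos ((u p + p.2.2 / 2) / 2)) (p0 β) :=
      (Complex.analyticAt_cos.fun_comp ((hu.add (han3 _)).div analyticAt_const two_ne_zero)).continuousAt
    have c2 : ContinuousAt (fun p => Complex.cos ((u p - p.2.2 / 2) / 2)) (p0 β) :=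
      (Complex.analyticAt_cos.fun_comp ((hu.sub (han3 _)).div analyticAt_const two_ne_zero)).continuousAt
    exact (c1.eventually_ne (by rw [e1]; exact h1)).and (c2.eventually_ne (by rw [e2]; exact h2))

theorem lgc : AnalyticAt ℂ (fun p => Lg (π - 2 * π * dz p) p.2.2) (p0 β) ∧
    Lg (π - 2 * π * dz (p0 β)) (p0 β).2.2 = 2 * gh (2 * β) ∧
    ∀ᶠ p in 𝓝 (p0 β), Complex.cos ((π - 2 * π * dz p + p.2.2) / 2) ≠ 0 ∧
      Complex.cos ((π - 2 * π * dz p - p.2.2) / 2) ≠ 0 := by
  have hs := (al_ne h).2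
  have h1 := (al_ne h).1
  have h2 : Complex.cos (al β - β) ≠ 0 := by
    intro h0
    rw [h0, zero_div] at hs
    exact Complex.slitPlane_ne_zero hs rfl
  have e0 : π - 2 * π * dz (p0 β) = 2 * al β := by
    rw [dz_p0 h]; linear_combination (-2) * pi_d0 β
  have e1 : (π - 2 * π * dz (p0 β) + (p0 β).2.2) / 2 = al β + β := by
    rw [e0]; simp only [p0]; ring
  have e2 : (π - 2 * π * dz (p0 β) - (p0 β).2.2) / 2 = al β - β := by
    rw [e0]; simp only [p0]; ring
  have hu : AnalyticAt ℂ (fun p => π - 2 * π * dz p) (p0 β) :=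
    analyticAt_const.sub (analyticAt_const.mul (dz_an h))
  refine ⟨?_, ?_, ?_⟩
  · apply Lg_an hu (an3 _)
    · rw [e1]; exact h1
    · rw [e1, e2]; exact hs
  · rw [e0]; exact Lg_al h
  · have c1 : ContinuousAt (fun p => Complex.cos ((π - 2 * π * dz p + p.2.2) / 2)) (p0 β) :=
      (Complex.analyticAt_cos.fun_comp ((hu.add (an3 _)).div analyticAt_const two_ne_zero)).continuousAt
    have c2 : ContinuousAt (fun p => Complex.cos ((π - 2 * π * dz p - p.2.2) / 2)) (p0 β) :=
      (Complex.analyticAt_cos.fun_comp ((hu.sub (an3 _)).div analyticAt_const two_ne_zero)).continuousAt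
    exact (c1.eventually_ne (by rw [e1]; exact h1)).and (c2.eventually_ne (by rw [e2]; exact h2))

theorem ev_chi : ∀ᶠ p in 𝓝 (p0 β), Lg (u1 p) (p.2.2 / 2) + Lg (u2 p) (p.2.2 / 2) +
    Lg (u3 p) (p.2.2 / 2) + Lg (u4 p) (p.2.2 / 2) - 2 * Lg (π - 2 * π * dz p) p.2.2 = 0 := by
  obtain ⟨x1, x2, x3⟩ := lgu h (u1_an h) (u1_p0 β)
  obtain ⟨y1, y2, y3⟩ := lgu h (u2_an h) (u2_p0 β)
  obtain ⟨z1, z2, z3⟩ := lgu h (u3_an h) (u3_p0 β)
  obtain ⟨w1, w2, w3⟩ := lgu h (u4_an h) (u4_p0 β)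
  obtain ⟨g1, g2, g3⟩ := lgc h
  apply ev_zero
  · exact (((x1.add y1).add z1).add w1).sub (analyticAt_const.mul g1)
  · rw [x2, y2, z2, w2, g2]; ring
  · filter_upwards [x3, y3, z3, w3, g3, ev_rel h] with p x3 y3 z3 w3 g3 hr
    obtain ⟨h0, h00, h1, h2, h3⟩ := hr
    have k1 := chi_eq1 (ψ := p.1) (ψ' := p.2.1) (t := tz p) (z := p.2.2 / 2) h1
    have k2 := chi_eq2 (ψ := p.1) (ψ' := p.2.1) (t := tz p) (z := p.2.2 / 2) h1
    rw [Complex.exp_sub, Complex.exp_add, Complex.exp_add, Complex.exp_add, exp_Lg x3.1 x3.2,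
      exp_Lg y3.1 y3.2, exp_Lg z3.1 z3.2, exp_Lg w3.1 w3.2,
      show 2 * Lg (π - 2 * π * dz p) p.2.2 = ((2 : ℕ) : ℂ) * Lg (π - 2 * π * dz p) p.2.2 by
        push_cast; ring, Complex.exp_nat_mul, exp_Lg g3.1 g3.2]
    have m1 : Complex.cos ((π - 2 * π * dz p - p.2.2) / 2) * Complex.cos (tz p) =
        Complex.cos (π * dz p) * (Complex.cos (p.1 / 2) * Complex.cos (p.2.1 / 2) +
          Complex.sin (p.2.2 / 2) * Complex.cos (tz p)) := by
      rw [show (π - 2 * π * dz p - p.2.2) / 2 = π / 2 - (π * dz p + p.2.2 / 2) by ring,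
        Complex.cos_pi_div_two_sub, Complex.sin_add]
      linear_combination h3
    have m2 : Complex.cos ((π - 2 * π * dz p + p.2.2) / 2) * Complex.cos (tz p) =
        Complex.cos (π * dz p) * (Complex.cos (p.1 / 2) * Complex.cos (p.2.1 / 2) -
          Complex.sin (p.2.2 / 2) * Complex.cos (tz p)) := by
      rw [show (π - 2 * π * dz p + p.2.2) / 2 = π / 2 - (π * dz p - p.2.2 / 2) by ring,
        Complex.cos_pi_div_two_sub, Complex.sin_sub]
      linear_combination h3
    obtain ⟨x4, x5⟩ := x3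
    obtain ⟨y4, y5⟩ := y3
    obtain ⟨z4, z5⟩ := z3
    obtain ⟨w4, w5⟩ := w3
    obtain ⟨g4, g5⟩ := g3
    change 4 * ((Complex.cos ((u1 p - p.2.2 / 2) / 2) * Complex.cos ((u2 p - p.2.2 / 2) / 2)) *
      (Complex.cos ((u3 p - p.2.2 / 2) / 2) * Complex.cos ((u4 p - p.2.2 / 2) / 2))) = _ at k1
    change 4 * ((Complex.cos ((u1 p + p.2.2 / 2) / 2) * Complex.cos ((u2 p + p.2.2 / 2) / 2)) *
      (Complex.cos ((u3 p + p.2.2 / 2) / 2) * Complex.cos ((u4 p + p.2.2 / 2) / 2))) = _ at k2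
    set N1 := Complex.cos ((u1 p - p.2.2 / 2) / 2)
    set N2 := Complex.cos ((u2 p - p.2.2 / 2) / 2)
    set N3 := Complex.cos ((u3 p - p.2.2 / 2) / 2)
    set N4 := Complex.cos ((u4 p - p.2.2 / 2) / 2)
    set D1 := Complex.cos ((u1 p + p.2.2 / 2) / 2)
    set D2 := Complex.cos ((u2 p + p.2.2 / 2) / 2)
    set D3 := Complex.cos ((u3 p + p.2.2 / 2) / 2)
    set D4 := Complex.cos ((u4 p + p.2.2 / 2) / 2)
    set NN := Complex.cos ((π - 2 * π * dz p - p.2.2) / 2)
    set DD := Complex.cos ((π - 2 * π * dz p + p.2.2) / 2)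
    set Ep := Complex.cos (p.1 / 2) * Complex.cos (p.2.1 / 2) + Complex.sin (p.2.2 / 2) * Complex.cos (tz p)
    set Em := Complex.cos (p.1 / 2) * Complex.cos (p.2.1 / 2) - Complex.sin (p.2.2 / 2) * Complex.cos (tz p)
    set ct := Complex.cos (tz p)
    set cd := Complex.cos (π * dz p)
    have key : N1 * N2 * N3 * N4 * DD ^ 2 = D1 * D2 * D3 * D4 * NN ^ 2 := by
      apply mul_right_cancel₀ (mul_ne_zero (by norm_num : (4 : ℂ) ≠ 0) (pow_ne_zero 2 h00))
      have m3 : DD ^ 2 * ct ^ 2 = cd ^ 2 * Em ^ 2 := by rw [← mul_pow, m2, mul_pow]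
      have m4 : NN ^ 2 * ct ^ 2 = cd ^ 2 * Ep ^ 2 := by rw [← mul_pow, m1, mul_pow]
      linear_combination (DD ^ 2 * ct ^ 2) * k1 - (NN ^ 2 * ct ^ 2) * k2 + Ep ^ 2 * m3 - Em ^ 2 * m4
    field_simp
    linear_combination key

theorem ev_dcos : ∀ᶠ p in 𝓝 (p0 β),
    1 + Complex.cos p.2.2 + Complex.cos p.1 + Complex.cos p.2.1 ≠ 0 ∧
    Complex.cos (2 * π * dz p) = (Complex.cos p.2.2 - Complex.cos p.1 * Complex.cos p.2.1) /
      (1 + Complex.cos p.2.2 + Complex.cos p.1 + Complex.cos p.2.1) := by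
  have n4 : ∀ᶠ p : ℂ × ℂ × ℂ in 𝓝 (p0 β),
      1 + Complex.cos p.2.2 + Complex.cos p.1 + Complex.cos p.2.1 ≠ 0 := by
    have : ContinuousAt (fun p : ℂ × ℂ × ℂ =>
        1 + Complex.cos p.2.2 + Complex.cos p.1 + Complex.cos p.2.1) (p0 β) := by
      fun_prop
    apply this.eventually_ne
    simp only [p0, Complex.cos_zero, Complex.cos_two_mul]
    intro h0
    have h1 : Complex.cos β ^ 2 = -1 := by linear_combination h0 / 2
    have h2 := cos_ne h
    have h3 : (1 / Complex.cos β) ^ 2 = -1 := by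
      rw [div_pow, h1]; norm_num
    have h4 : (1 / Complex.cos β - Complex.I) * (1 / Complex.cos β + Complex.I) = 0 := by
      linear_combination h3 - Complex.I_sq
    rcases mul_eq_zero.1 h4 with h5 | h5
    · exact (inv_ne h).1 (by linear_combination h5)
    · exact (inv_ne h).2 (by linear_combination h5)
  filter_upwards [n4, ev_rel h] with p n4 hr
  obtain ⟨h0, h00, h1, h2, h3⟩ := hr
  refine ⟨n4, ?_⟩
  rw [eq_div_iff n4]
  have s1 := Complex.sin_sq_add_cos_sq (π * dz p)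
  have s2 := Complex.sin_sq_add_cos_sq (tz p)
  have s3 := Complex.sin_sq_add_cos_sq (p.1 / 2)
  have s4 := Complex.sin_sq_add_cos_sq (p.2.1 / 2)
  have c1 : Complex.cos p.1 = 2 * Complex.cos (p.1 / 2) ^ 2 - 1 := by
    rw [← Complex.cos_two_mul]; congr 1; ring
  have c2 : Complex.cos p.2.1 = 2 * Complex.cos (p.2.1 / 2) ^ 2 - 1 := by
    rw [← Complex.cos_two_mul]; congr 1; ring
  have c3 : Complex.cos p.2.2 = 2 * Complex.cos (p.2.2 / 2) ^ 2 - 1 := by
    rw [← Complex.cos_two_mul]; congr 1; ring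
  have c4 : Complex.cos (2 * π * dz p) = 2 * Complex.cos (π * dz p) ^ 2 - 1 := by
    rw [← Complex.cos_two_mul]; congr 1; ring
  rw [c1, c2, c3, c4]
  set C := Complex.cos (p.1 / 2)
  set C' := Complex.cos (p.2.1 / 2)
  set S := Complex.sin (p.1 / 2)
  set S' := Complex.sin (p.2.1 / 2)
  set w := Complex.cos (p.2.2 / 2)
  set ct := Complex.cos (tz p)
  set st := Complex.sin (tz p)
  set cd := Complex.cos (π * dz p)
  set sd := Complex.sin (π * dz p)
  have k1 : (w * ct) ^ 2 = w ^ 2 - (1 - C ^ 2) * (1 - C' ^ 2) := by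
    have e1 : (w * st) ^ 2 = S ^ 2 * S' ^ 2 := by rw [h1]; ring
    have e2 : S ^ 2 = 1 - C ^ 2 := by linear_combination s3
    have e3 : S' ^ 2 = 1 - C' ^ 2 := by linear_combination s4
    rw [e2, e3] at e1
    linear_combination w ^ 2 * s2 - e1
  have k2 : cd ^ 2 * ((w * ct) ^ 2 + C ^ 2 * C' ^ 2) = (w * ct) ^ 2 := by
    have e1 : (sd * (w * ct)) ^ 2 = (C * C' * cd) ^ 2 := by rw [h3]
    linear_combination (w * ct) ^ 2 * s1 - e1
  rw [k1] at k2
  linear_combination 4 * k2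

theorem ev_dcrit : ∀ᶠ p in 𝓝 (p0 β),
    Complex.log (2 * Complex.cos p.1 + 2 * Complex.cos (2 * π * dz p)) +
      Complex.log (2 * Complex.cos p.2.1 + 2 * Complex.cos (2 * π * dz p)) =
      Complex.log (2 * Complex.cos p.2.2 - 2 * Complex.cos (2 * π * dz p)) +
      2 * Complex.log (2 * Complex.sin (π * dz p)) := by
  have hd := dz_an h
  have hcd : AnalyticAt ℂ (fun p => Complex.cos (2 * π * dz p)) (p0 β) :=
    Complex.analyticAt_cos.fun_comp (analyticAt_const.mul hd)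
  have hsd : AnalyticAt ℂ (fun p => Complex.sin (π * dz p)) (p0 β) :=
    Complex.analyticAt_sin.fun_comp (analyticAt_const.mul hd)
  have a1 : AnalyticAt ℂ (fun p : ℂ × ℂ × ℂ => 2 * Complex.cos p.1 + 2 * Complex.cos (2 * π * dz p))
      (p0 β) := (analyticAt_const.mul (Complex.analyticAt_cos.fun_comp (an1 _))).add
        (analyticAt_const.mul hcd)
  have a2 : AnalyticAt ℂ (fun p : ℂ × ℂ × ℂ => 2 * Complex.cos p.2.1 + 2 * Complex.cos (2 * π * dz p))
      (p0 β) := (analyticAt_const.mul (Complex.analyticAt_cos.fun_comp (an2 _))).add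
        (analyticAt_const.mul hcd)
  have a3 : AnalyticAt ℂ (fun p : ℂ × ℂ × ℂ => 2 * Complex.cos p.2.2 - 2 * Complex.cos (2 * π * dz p))
      (p0 β) := (analyticAt_const.mul (Complex.analyticAt_cos.fun_comp (an3 _))).sub
        (analyticAt_const.mul hcd)
  have a4 : AnalyticAt ℂ (fun p : ℂ × ℂ × ℂ => 2 * Complex.sin (π * dz p)) (p0 β) :=
    analyticAt_const.mul hsd
  have v1 : 2 * Complex.cos (p0 β).1 + 2 * Complex.cos (2 * π * dz (p0 β)) ∈ Complex.slitPlane := by
    have := (adm_zero h 1 ⟨zero_le_one, le_rfl⟩).1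
    unfold G at this
    simp only [Complex.ofReal_one, mul_one] at this
    rw [dz_p0 h]; exact this
  have v3 : 2 * Complex.cos (p0 β).2.2 - 2 * Complex.cos (2 * π * dz (p0 β)) ∈ Complex.slitPlane := by
    have := G_chi h (t := 1) ⟨zero_le_one, le_rfl⟩
    rw [Complex.ofReal_one, mul_one] at this
    have e : Complex.cos (2 * π * dz (p0 β)) = -Complex.cos (2 * al β) := by
      rw [dz_p0 h, show 2 * π * d0 β = π - 2 * al β by linear_combination 2 * pi_d0 β,
        Complex.cos_pi_sub]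
    rw [e, show 2 * Complex.cos (p0 β).2.2 - 2 * -Complex.cos (2 * al β) =
      2 * Complex.cos (2 * β) + 2 * Complex.cos (2 * al β) by simp only [p0]; ring]
    exact this
  have v4 : 2 * Complex.sin (π * dz (p0 β)) ∈ Complex.slitPlane := by
    have := adm_S h 1 ⟨zero_le_one, le_rfl⟩
    have e := sin_kk (d0 β) 1
    rw [Complex.ofReal_one, mul_one, one_mul] at e
    rw [dz_p0 h, e]; exact this
  have key := ev_zero (p := p0 β) (f := fun p =>
    Complex.log (2 * Complex.cos p.1 + 2 * Complex.cos (2 * π * dz p)) +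
      Complex.log (2 * Complex.cos p.2.1 + 2 * Complex.cos (2 * π * dz p)) -
      Complex.log (2 * Complex.cos p.2.2 - 2 * Complex.cos (2 * π * dz p)) -
      2 * Complex.log (2 * Complex.sin (π * dz p))) (by
        exact (((a1.clog v1).add (a2.clog v1)).sub (a3.clog v3)).sub (analyticAt_const.mul (a4.clog v4)))
      (by
        have := dcrit_base h
        rw [dz_p0 h]
        simp only [p0]
        linear_combination this)
      (by
        have n1 := a1.continuousAt.eventually_ne (Complex.slitPlane_ne_zero v1)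
        have n2 := a2.continuousAt.eventually_ne (y := 0) (Complex.slitPlane_ne_zero v1)
        have n3 := a3.continuousAt.eventually_ne (Complex.slitPlane_ne_zero v3)
        have n4 := a4.continuousAt.eventually_ne (Complex.slitPlane_ne_zero v4)
        filter_upwards [n1, n2, n3, n4, ev_dcos h] with p n1 n2 n3 n4 hd
        obtain ⟨n5, hd⟩ := hd
        rw [Complex.exp_sub, Complex.exp_sub, Complex.exp_add, Complex.exp_log n1, Complex.exp_log n2,
          Complex.exp_log n3, show 2 * Complex.log (2 * Complex.sin (π * dz p)) =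
          ((2:ℕ):ℂ) * Complex.log (2 * Complex.sin (π * dz p)) by push_cast; ring,
          Complex.exp_nat_mul, Complex.exp_log n4, div_div, div_eq_one_iff_eq (mul_ne_zero n3
            (pow_ne_zero 2 n4))]
        have h1 : 2 * Complex.sin (π * dz p) ^ 2 = 1 - Complex.cos (2 * π * dz p) := by
          rw [show (2 * π * dz p : ℂ) = 2 * (π * dz p) by ring, Complex.cos_two_mul, Complex.sin_sq]
          ring
        have h3 : Complex.cos (2 * π * dz p) *
            (1 + Complex.cos p.2.2 + Complex.cos p.1 + Complex.cos p.2.1) =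
            Complex.cos p.2.2 - Complex.cos p.1 * Complex.cos p.2.1 := by
          rw [hd, div_mul_cancel₀ _ n5]
        linear_combination 4 * h3 - (2 * (2 * Complex.cos p.2.2 - 2 * Complex.cos (2 * π * dz p))) * h1)
  filter_upwards [key] with p hp
  linear_combination hp

end

end Pool.Agent.Y641.CG
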