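import Pool.Agent.Y641.CG.Reg

/-! The critical angle at the base point. -/

set_option autoImplicit false

namespace Pool.Agent.Y641.CG

open Filter Topology Metric MeasureTheory Set
open scoped Real ComplexConjugate
open Pool.Agent.W711.HT Pool.Agent.W398.HT

/-- `tan ^ 2 (β / 2)` -/
noncomputable def vv (β : ℂ) : ℂ := (1 - Complex.cos β) / (1 + Complex.cos β)

noncomputable def AA (β : ℂ) : ℂ := Complex.arctan (vv β)

/-- the critical angle -/
noncomputable def al (β : ℂ) : ℂ := π / 4 - AA β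

theorem norm_arctan_le {v : ℂ} (hv : ‖v‖ < 1) : ‖Complex.arctan v‖ ≤ ‖v‖ / (1 - ‖v‖ ^ 2) := by
  have h1 := Complex.hasSum_arctan hv
  have hr : ‖v‖ ^ 2 < 1 := by nlinarith [norm_nonneg v]
  have h2 : HasSum (fun n : ℕ => ‖v‖ * (‖v‖ ^ 2) ^ n) (‖v‖ * (1 - ‖v‖ ^ 2)⁻¹) :=
    (hasSum_geometric_of_lt_one (by positivity) hr).mul_left _
  rw [div_eq_mul_inv, ← h1.tsum_eq, ← h2.tsum_eq]
  apply tsum_of_norm_bounded h2.summable.hasSum
  intro n
  rw [norm_div, norm_mul, norm_pow, norm_neg, norm_one, one_pow, one_mul, norm_pow,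
    Complex.norm_natCast, show ‖v‖ * (‖v‖ ^ 2) ^ n = ‖v‖ ^ (2 * n + 1) by rw [← pow_mul]; ring]
  apply div_le_self (by positivity)
  exact_mod_cast Nat.succ_le_succ (Nat.zero_le _)

section
variable {β : ℂ} (h : Rg β)
include h

theorem cx : √2 / 2 ≤ Real.cos β.re := by
  rw [← Real.cos_pi_div_four, ← Real.cos_neg β.re]
  apply Real.cos_le_cos_of_nonneg_of_le_pi
  · linarith [h.r2]
  · linarith [Real.pi_pos]
  · linarith [h.r1]

theorem cx_pos : 0 < Real.cos β.re := by
  have := cx h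
  have h2 : 0 < √2 := by positivity
  linarith

theorem sx : 0 ≤ -Real.sin β.re := by
  rw [← Real.sin_neg]
  apply Real.sin_nonneg_of_nonneg_of_le_pi
  · linarith [h.r2]
  · linarith [h.r1, Real.pi_pos]

theorem cx_sq : 1 / 2 ≤ Real.cos β.re ^ 2 := by
  have h1 := cx h
  have h2 : √2 ^ 2 = 2 := Real.sq_sqrt (by norm_num)
  have h3 : 0 < √2 := by positivity
  nlinarith

theorem sx_le : -Real.sin β.re ≤ Real.cos β.re := by
  have h1 := cx_sq h
  have h2 := Real.sin_sq_add_cos_sq β.re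
  have h3 := cx_pos h
  apply le_of_sq_le_sq _ h3.le
  nlinarith

omit h in
theorem cosh_one : 1 ≤ Real.cosh β.im := Real.one_le_cosh _

theorem sinh_nn : 0 ≤ Real.sinh β.im := Real.sinh_nonneg_iff.2 h.i1

theorem wr : √2 / 2 ≤ (Complex.cos β).re := by
  rw [cos_re]
  have h1 := cx h
  have h2 := cosh_one (β := β)
  have h3 := cx_pos h
  nlinarith

theorem wr_pos : 0 < (Complex.cos β).re := by
  have := wr h
  have h2 : 0 < √2 := by positivity
  linarith

theorem wi_nn : 0 ≤ (Complex.cos β).im := by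
  rw [cos_im]
  have := mul_nonneg (sx h) (sinh_nn h)
  linarith

theorem wi_lt : (Complex.cos β).im < (Complex.cos β).re := by
  rw [cos_im, cos_re]
  have h1 := sx_le h
  have h2 := sinh_nn h
  have h3 := cx_pos h
  have h4 : Real.sinh β.im < Real.cosh β.im := Real.sinh_lt_cosh _
  nlinarith

theorem one_add_ne : 1 + Complex.cos β ≠ 0 := by
  intro h0
  have := congrArg Complex.re h0
  have h1 := wr_pos h
  simp at this
  linarith

theorem norm_vv : ‖vv β‖ ≤ 345 / 1000 := by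
  unfold vv
  rw [norm_div, div_le_iff₀ (norm_pos_iff.2 (one_add_ne h))]
  apply le_of_sq_le_sq _ (by positivity)
  rw [mul_pow, ← Complex.normSq_eq_norm_sq, ← Complex.normSq_eq_norm_sq, Complex.normSq_apply,
    Complex.normSq_apply]
  simp only [Complex.sub_re, Complex.sub_im, Complex.add_re, Complex.add_im, Complex.one_re,
    Complex.one_im, cos_re, cos_im]
  have h1 := Real.sin_sq_add_cos_sq β.re
  have h2 := Real.cosh_sq β.im
  have h3 := cosh_bd h.i1 h.i2
  have h4 := cx h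
  have h5 := cosh_one (β := β)
  have h6 : (7071 : ℝ) / 10000 < √2 / 2 := by
    rw [lt_div_iff₀ (by norm_num)]
    apply Real.lt_sqrt_of_sq_lt; norm_num
  have h7 := Real.cos_le_one β.re
  set c := Real.cos β.re
  set s := Real.sin β.re
  set X := Real.cosh β.im
  set Y := Real.sinh β.im
  have e1 : (1 - c * X) * (1 - c * X) + (0 - -(s * Y)) * (0 - -(s * Y)) = (X - c) ^ 2 := by
    linear_combination (Y ^ 2) * h1 + (c ^ 2 - 1) * h2
  have e2 : (1 + c * X) * (1 + c * X) + (0 + -(s * Y)) * (0 + -(s * Y)) = (X + c) ^ 2 := by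
    linear_combination (Y ^ 2) * h1 + (c ^ 2 - 1) * h2
  rw [e1, e2, ← mul_pow]
  apply pow_le_pow_left₀ (by linarith)
  linarith

theorem norm_AA : ‖AA β‖ < π / 8 := by
  have h1 := norm_vv h
  have h2 : ‖vv β‖ < 1 := by linarith
  refine (norm_arctan_le h2).trans_lt ?_
  have h3 := Real.pi_gt_d4
  have h0 := norm_nonneg (vv β)
  have h4 : ‖vv β‖ / (1 - ‖vv β‖ ^ 2) ≤ 3926 / 10000 := by
    rw [div_le_iff₀ (by nlinarith)]
    nlinarith
  linarith

theorem vv_ne : vv β ≠ Complex.I ∧ vv β ≠ -Complex.I := by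
  have h1 := norm_vv h
  constructor
  · intro h0; rw [h0, Complex.norm_I] at h1; norm_num at h1
  · intro h0; rw [h0, norm_neg, Complex.norm_I] at h1; norm_num at h1

theorem al_re : π / 8 < (al β).re ∧ (al β).re < 3 * π / 8 := by
  have h1 := norm_AA h
  have h2 := Complex.abs_re_le_norm (AA β)
  rw [abs_le] at h2
  have e : (al β).re = π / 4 - (AA β).re := by
    unfold al
    rw [Complex.sub_re, show (π : ℂ) / 4 = ((π / 4 : ℝ) : ℂ) by push_cast; ring, Complex.ofReal_re]
  rw [e]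
  constructor <;> linarith

theorem cos_AA_ne : Complex.cos (AA β) ≠ 0 := by
  intro h0
  have h1 := congrArg Complex.re h0
  rw [cos_re, Complex.zero_re] at h1
  have h2 := norm_AA h
  have h3 := Complex.abs_re_le_norm (AA β)
  rw [abs_le] at h3
  have h4 : 0 < Real.cos (AA β).re := Real.cos_pos_of_mem_Ioo ⟨by linarith [Real.pi_pos], by
    linarith [Real.pi_pos]⟩
  have h5 := Real.cosh_pos (AA β).im
  have := mul_pos h4 h5
  linarith

theorem sin_al : Complex.sin (al β) = Complex.cos β * Complex.cos (al β) := by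
  have h1 := Complex.tan_arctan (vv_ne h).1 (vv_ne h).2
  have h2 := cos_AA_ne h
  have h3 := one_add_ne h
  change Complex.tan (AA β) = vv β at h1
  rw [Complex.tan_eq_sin_div_cos, div_eq_iff h2] at h1
  have h4 : Complex.sin (AA β) * (1 + Complex.cos β) = (1 - Complex.cos β) * Complex.cos (AA β) := by
    rw [h1, vv]; field_simp
  unfold al
  rw [Complex.sin_sub, Complex.cos_sub]
  have e1 : Complex.sin (π / 4) = ((√2 / 2 : ℝ) : ℂ) := by
    rw [show (π : ℂ) / 4 = ((π / 4 : ℝ) : ℂ) by push_cast; ring, ← Complex.ofReal_sin,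
      Real.sin_pi_div_four]
  have e2 : Complex.cos (π / 4) = ((√2 / 2 : ℝ) : ℂ) := by
    rw [show (π : ℂ) / 4 = ((π / 4 : ℝ) : ℂ) by push_cast; ring, ← Complex.ofReal_cos,
      Real.cos_pi_div_four]
  rw [e1, e2]
  linear_combination (-((√2 / 2 : ℝ) : ℂ)) * h4

theorem cos_al_re : 0 < (Complex.cos (al β)).re := by
  rw [cos_re]
  have h1 := al_re h
  apply mul_pos _ (Real.cosh_pos _)
  apply Real.cos_pos_of_mem_Ioo ⟨by linarith [Real.pi_pos], by linarith [Real.pi_pos]⟩

theorem sin_al_re : 0 < (Complex.sin (al β)).re := by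
  rw [sin_re]
  have h1 := al_re h
  apply mul_pos _ (Real.cosh_pos _)
  apply Real.sin_pos_of_pos_of_lt_pi <;> linarith [Real.pi_pos]

theorem cos_al_ne : Complex.cos (al β) ≠ 0 := by
  intro h0
  have := cos_al_re h
  rw [h0, Complex.zero_re] at this
  exact lt_irrefl _ this

theorem sin_al_ne : Complex.sin (al β) ≠ 0 := by
  intro h0
  have := sin_al_re h
  rw [h0, Complex.zero_re] at this
  exact lt_irrefl _ this

theorem cos_ne : Complex.cos β ≠ 0 := by
  intro h0
  have := wr_pos h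
  rw [h0, Complex.zero_re] at this
  exact lt_irrefl _ this

/-- the squared modulus of the cosine of the critical angle -/
theorem NN : ∃ N : ℝ, 0 < N ∧ N ≤ 1 ∧
    Real.sin (al β).re * Real.cos (al β).re = N * (Complex.cos β).re ∧
    Real.sinh (al β).im * Real.cosh (al β).im = N * (Complex.cos β).im := by
  have h1 := congrArg Complex.re (sin_al h)
  have h2 := congrArg Complex.im (sin_al h)
  rw [sin_re, Complex.mul_re, cos_re (al β), cos_im (al β)] at h1
  rw [sin_im, Complex.mul_im, cos_re (al β), cos_im (al β)] at h2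
  have h0 := wr_pos h
  have h00 := wi_nn h
  have h000 := wi_lt h
  have a1 := Real.sin_sq_add_cos_sq (al β).re
  have a2 := Real.cosh_sq (al β).im
  set wr := (Complex.cos β).re
  set wi := (Complex.cos β).im
  set sp := Real.sin (al β).re
  set cp := Real.cos (al β).re
  set Cq := Real.cosh (al β).im
  set Sq := Real.sinh (al β).im
  have hcp : 0 < cp := by
    have h1 := al_re h
    exact Real.cos_pos_of_mem_Ioo ⟨by linarith [Real.pi_pos], by linarith [Real.pi_pos]⟩
  have e1 : sp * cp = (cp ^ 2 + Sq ^ 2) * wr := by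
    linear_combination (cp * Cq) * h1 + (-sp * Sq) * h2 + (-sp * cp + wr * cp ^ 2) * a2 +
      (wr * Sq ^ 2) * a1
  have e2 : Sq * Cq = (cp ^ 2 + Sq ^ 2) * wi := by
    linear_combination (cp * Cq) * h2 + (sp * Sq) * h1 + (wi * cp ^ 2) * a2 +
      (wi * Sq ^ 2 - Sq * Cq) * a1
  refine ⟨cp ^ 2 + Sq ^ 2, by positivity, ?_, e1, e2⟩
  -- `Sq ^ 2 ≤ sp ^ 2`
  have e3 : Sq ^ 2 * (1 + Sq ^ 2) = (cp ^ 2 + Sq ^ 2) ^ 2 * wi ^ 2 := by
    rw [← mul_pow, ← e2, mul_pow, a2]; ring
  have e4 : sp ^ 2 * (1 - sp ^ 2) = (cp ^ 2 + Sq ^ 2) ^ 2 * wr ^ 2 := by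
    rw [← mul_pow, ← e1, mul_pow]
    linear_combination (-sp ^ 2) * a1
  have e5 : wi ^ 2 ≤ wr ^ 2 := pow_le_pow_left₀ h00 h000.le 2
  have e6 : Sq ^ 2 * (1 + Sq ^ 2) ≤ sp ^ 2 * (1 - sp ^ 2) := by
    rw [e3, e4]
    exact mul_le_mul_of_nonneg_left e5 (by positivity)
  nlinarith [sq_nonneg (Sq ^ 2), sq_nonneg (sp ^ 2)]

end

end Pool.Agent.Y641.CG
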