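import Mathlib

/-! Trigonometric identities at the saddle point. -/

set_option autoImplicit false

namespace Pool.Agent.Y641.CG

open Complex (sin cos)
open scoped Real

/-- the lower and upper ends -/
noncomputable def b1 (ψ ψ' t : ℂ) : ℂ := t + ψ / 2 + (π + ψ') / 2
noncomputable def a1 (ψ ψ' t : ℂ) : ℂ := t + ψ / 2 - (π + ψ') / 2
noncomputable def b2 (ψ ψ' t : ℂ) : ℂ := t - ψ / 2 + (π - ψ') / 2
noncomputable def a2 (ψ ψ' t : ℂ) : ℂ := t - ψ / 2 - (π - ψ') / 2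

variable (ψ ψ' t : ℂ)

theorem cos_b1 : cos (b1 ψ ψ' t) = -(sin t * (cos (ψ / 2) * cos (ψ' / 2) - sin (ψ / 2) * sin (ψ' / 2)) +
    cos t * (sin (ψ / 2) * cos (ψ' / 2) + cos (ψ / 2) * sin (ψ' / 2))) := by
  rw [← Complex.cos_add, ← Complex.sin_add, ← Complex.sin_add, b1,
    show t + ψ / 2 + (π + ψ') / 2 = (t + (ψ / 2 + ψ' / 2)) + π / 2 by ring, Complex.cos_add_pi_div_two]

theorem cos_b2 : cos (b2 ψ ψ' t) = -(sin t * (cos (ψ / 2) * cos (ψ' / 2) - sin (ψ / 2) * sin (ψ' / 2)) -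
    cos t * (sin (ψ / 2) * cos (ψ' / 2) + cos (ψ / 2) * sin (ψ' / 2))) := by
  rw [← Complex.cos_add, ← Complex.sin_add, ← Complex.sin_sub, b2,
    show t - ψ / 2 + (π - ψ') / 2 = (t - (ψ / 2 + ψ' / 2)) + π / 2 by ring, Complex.cos_add_pi_div_two]

theorem cos_a1 : cos (a1 ψ ψ' t) = sin t * (cos (ψ / 2) * cos (ψ' / 2) + sin (ψ / 2) * sin (ψ' / 2)) +
    cos t * (sin (ψ / 2) * cos (ψ' / 2) - cos (ψ / 2) * sin (ψ' / 2)) := by
  rw [← Complex.cos_sub, ← Complex.sin_sub, ← Complex.sin_add, a1,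
    show t + ψ / 2 - (π + ψ') / 2 = (t + (ψ / 2 - ψ' / 2)) - π / 2 by ring, Complex.cos_sub_pi_div_two]

theorem cos_a2 : cos (a2 ψ ψ' t) = sin t * (cos (ψ / 2) * cos (ψ' / 2) + sin (ψ / 2) * sin (ψ' / 2)) -
    cos t * (sin (ψ / 2) * cos (ψ' / 2) - cos (ψ / 2) * sin (ψ' / 2)) := by
  rw [← Complex.cos_sub, ← Complex.sin_sub, ← Complex.sin_sub, a2,
    show t - ψ / 2 - (π - ψ') / 2 = (t - (ψ / 2 - ψ' / 2)) - π / 2 by ring, Complex.cos_sub_pi_div_two]

section alg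

variable {C S C' S' w s ct st : ℂ} (e1 : ct ^ 2 + st ^ 2 = 1) (e2 : C ^ 2 + S ^ 2 = 1)
  (e3 : C' ^ 2 + S' ^ 2 = 1) (h : w * st = -(S * S'))
include e1 h

theorem alg_stat : (2 * w + 2 * (-(st * (C * C' - S * S') + ct * (S * C' + C * S')))) *
    (2 * w + 2 * (-(st * (C * C' - S * S') - ct * (S * C' + C * S')))) =
    (2 * w + 2 * (st * (C * C' + S * S') + ct * (S * C' - C * S'))) *
    (2 * w + 2 * (st * (C * C' + S * S') - ct * (S * C' - C * S'))) := by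
  linear_combination (-16 * C * C') * h + (-16 * C * C' * S * S') * e1

include e2 e3

theorem alg_psi1 : w ^ 2 * ((2 * w + 2 * (-(st * (C * C' - S * S') + ct * (S * C' + C * S')))) *
    (2 * w + 2 * (st * (C * C' + S * S') - ct * (S * C' - C * S')))) =
    4 * (w * ct - C' * S) ^ 2 * (w ^ 2 * ct ^ 2 - S' ^ 2 * C ^ 2) := by
  have k1 : w * (w - (ct * C' - st * S') * S) = w * ct * (w * ct - C' * S) := by
    linear_combination (-w ^ 2) * e1 + (w * st) * h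
  have k2 : w * (st * C' + ct * S') = S' * (w * ct - C' * S) := by
    linear_combination C' * h
  linear_combination 4 * (w * (w - (ct * C' - st * S') * S) + w * ct * (w * ct - C' * S)) * k1 -
    4 * C ^ 2 * (w * (st * C' + ct * S') + S' * (w * ct - C' * S)) * k2

theorem alg_psi2 : w ^ 2 * ((2 * w + 2 * (st * (C * C' + S * S') + ct * (S * C' - C * S'))) *
    (2 * w + 2 * (-(st * (C * C' - S * S') - ct * (S * C' + C * S'))))) =
    4 * (w * ct + C' * S) ^ 2 * (w ^ 2 * ct ^ 2 - S' ^ 2 * C ^ 2) := by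
  have k1 : w * (w + (ct * C' + st * S') * S) = w * ct * (w * ct + C' * S) := by
    linear_combination (-w ^ 2) * e1 + (w * st) * h
  have k2 : w * (st * C' - ct * S') = -(S' * (w * ct + C' * S)) := by
    linear_combination C' * h
  linear_combination 4 * (w * (w + (ct * C' + st * S') * S) + w * ct * (w * ct + C' * S)) * k1 -
    4 * C ^ 2 * (w * (st * C' - ct * S') - S' * (w * ct + C' * S)) * k2

theorem alg_chi1 (e4 : w ^ 2 + s ^ 2 = 1) :
    (ct * C - st * S + (s * C' - w * S')) * (ct * C + st * S + (s * C' + w * S')) =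
    (C * C' + s * ct) ^ 2 := by
  linear_combination (C ^ 2 - s ^ 2) * e1 + ((1 - st ^ 2) - C' ^ 2) * e2 + (s ^ 2 - (1 - S ^ 2)) * e3 +
    (-S' ^ 2 + st ^ 2) * e4 - (w * st + S * S') * h

theorem alg_chi2 (e4 : w ^ 2 + s ^ 2 = 1) :
    (ct * C - st * S - (s * C' + w * S')) * (ct * C + st * S - (s * C' - w * S')) =
    (C * C' - s * ct) ^ 2 := by
  linear_combination (C ^ 2 - s ^ 2) * e1 + ((1 - st ^ 2) - C' ^ 2) * e2 + (s ^ 2 - (1 - S ^ 2)) * e3 +
    (-S' ^ 2 + st ^ 2) * e4 - (w * st + S * S') * h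

end alg

end Pool.Agent.Y641.CG
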