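import Pool.Agent.W398.HT.RRD2

/-! Derivatives of the limit functions near a complex base point. -/

set_option autoImplicit false

namespace Pool.Agent.Y641.CG

open Filter Topology Metric MeasureTheory Set
open scoped Real
open Pool.Agent.W711.HT Pool.Agent.W398.HT

/-- the conditions at a base point -/
def Adm (δ₀ ψ₀ : ℂ) : Prop := ∀ t ∈ Icc (0 : ℝ) 1,
  G (δ₀, ψ₀) t ∈ Complex.slitPlane ∧ QQ (δ₀, ψ₀) t ∈ Complex.slitPlane ∧
    Complex.cos ((2 * π * δ₀ * t + ψ₀) / 2) ≠ 0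

/-- the conditions for `ssF` -/
def AdmS (δ₀ : ℂ) : Prop := ∀ t ∈ Icc (0 : ℝ) 1, kk δ₀ t ∈ Complex.slitPlane

theorem exists_rho {δ₀ ψ₀ : ℂ} (h : Adm δ₀ ψ₀) :
    ∃ ρ > 0, ∀ p ∈ ball (δ₀, ψ₀) ρ, ∀ t ∈ Icc (0 : ℝ) 1,
      G p t ∈ Complex.slitPlane ∧ QQ p t ∈ Complex.slitPlane := by
  have key : ∀ᶠ p : ℂ × ℂ in 𝓝 (δ₀, ψ₀), ∀ t ∈ Icc (0 : ℝ) 1,
      G p t ∈ Complex.slitPlane ∧ QQ p t ∈ Complex.slitPlane := by
    apply isCompact_Icc.eventually_forall_of_forall_eventually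
    intro t ht
    obtain ⟨h1, h2, h3⟩ := h t ht
    refine Filter.Eventually.and ?_ ?_
    · have hc : ContinuousAt (fun q : (ℂ × ℂ) × ℝ => G q.1 q.2) ((δ₀, ψ₀), t) :=
        cont_G.continuousAt
      exact hc.eventually_mem (Complex.isOpen_slitPlane.mem_nhds h1)
    · have hc : ContinuousAt (fun q : (ℂ × ℂ) × ℝ => QQ q.1 q.2) ((δ₀, ψ₀), t) := by
        unfold QQ
        apply ContinuousAt.div
        · fun_prop
        · fun_prop
        · exact h3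
      exact hc.eventually_mem (Complex.isOpen_slitPlane.mem_nhds h2)
  obtain ⟨ρ, hρ, hsub⟩ := Metric.mem_nhds_iff.1 key
  exact ⟨ρ, hρ, fun p hp => hsub hp⟩

/-- the derivative of `rrF` -/
noncomputable def rd (p : ℂ × ℂ) : ℂ × ℂ →L[ℂ] ℂ :=
  Complex.log (2 * Complex.cos p.2 + 2 * Complex.cos (2 * π * p.1)) • ContinuousLinearMap.fst ℂ ℂ ℂ +
    (-(1 / (2 * π)) * Lg (2 * π * p.1) p.2) • ContinuousLinearMap.snd ℂ ℂ ℂ

theorem rrc {δ₀ ψ₀ : ℂ} (h : Adm δ₀ ψ₀) : ∀ᶠ p : ℂ × ℂ in 𝓝 (δ₀, ψ₀),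
    HasFDerivAt (fun p : ℂ × ℂ => rrF p.1 p.2) (rd p) p := by
  obtain ⟨ρ, hρ, hall⟩ := exists_rho h
  have hU : IsOpen (ball (δ₀, ψ₀) ρ) := isOpen_ball
  have hG : ∀ p ∈ ball (δ₀, ψ₀) ρ, ∀ t ∈ Icc (0 : ℝ) 1,
      G p t ∈ Complex.slitPlane := fun p hp t ht => (hall p hp t ht).1
  have hQ : ∀ p ∈ ball (δ₀, ψ₀) ρ, ∀ t ∈ Icc (0 : ℝ) 1,
      QQ p t ∈ Complex.slitPlane := fun p hp t ht => (hall p hp t ht).2
  filter_upwards [hU.mem_nhds (mem_ball_self hρ)] with p hp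
  refine (rr_deriv hU hG p hp).congr_fderiv ?_
  have h1 := id1 hG p hp
  have h2 := id2 hG hQ p hp
  have e : Complex.log (G p 1) = Complex.log (2 * Complex.cos p.2 + 2 * Complex.cos (2 * π * p.1)) := by
    unfold G
    push_cast
    rw [mul_one]
  rw [e] at h1
  ext
  · simp only [rd, add_apply, smul_apply, smul_eq_mul, ContinuousLinearMap.comp_apply,
      ContinuousLinearMap.inl_apply, ContinuousLinearMap.coe_fst', ContinuousLinearMap.coe_snd']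
    rw [LL_apply hG p hp, ← h1]
    simp [LL]
    ring
  · simp only [rd, add_apply, smul_apply, smul_eq_mul, ContinuousLinearMap.comp_apply,
      ContinuousLinearMap.inr_apply, ContinuousLinearMap.coe_fst', ContinuousLinearMap.coe_snd']
    rw [LL_apply hG p hp, ← h2]
    simp [LL]

theorem ssc {δ₀ : ℂ} (h : AdmS δ₀) : ∀ᶠ δ : ℂ in 𝓝 δ₀,
    HasDerivAt ssF (Complex.log (2 * Complex.sin (π * δ))) δ := by
  have key : ∀ᶠ δ : ℂ in 𝓝 δ₀, ∀ t ∈ Icc (0 : ℝ) 1, kk δ t ∈ Complex.slitPlane := by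
    apply isCompact_Icc.eventually_forall_of_forall_eventually
    intro t ht
    have hc : ContinuousAt (fun q : ℂ × ℝ => kk q.1 q.2) (δ₀, t) := cont_kk.continuousAt
    exact hc.eventually_mem (Complex.isOpen_slitPlane.mem_nhds (h t ht))
  obtain ⟨ρ, hρ, hsub⟩ := Metric.mem_nhds_iff.1 key
  filter_upwards [isOpen_ball.mem_nhds (mem_ball_self hρ)] with δ hδ
  exact ss_deriv isOpen_ball (fun δ hδ t ht => hsub hδ t ht) δ hδ

end Pool.Agent.Y641.CG
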