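import Pool.Agent.Y641.CG.RRc

/-! The region of the axis variable. -/

set_option autoImplicit false

namespace Pool.Agent.Y641.CG

open Filter Topology Metric MeasureTheory Set
open scoped Real ComplexConjugate
open Pool.Agent.W711.HT Pool.Agent.W398.HT

theorem cos_re (z : ℂ) : (Complex.cos z).re = Real.cos z.re * Real.cosh z.im := by
  rw [Complex.cos_eq]
  simp [Complex.cos_ofReal_re, Complex.sin_ofReal_re, Complex.cosh_ofReal_re, Complex.sinh_ofReal_re,
    Complex.cos_ofReal_im, Complex.sin_ofReal_im, Complex.cosh_ofReal_im, Complex.sinh_ofReal_im]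

theorem cos_im (z : ℂ) : (Complex.cos z).im = -(Real.sin z.re * Real.sinh z.im) := by
  rw [Complex.cos_eq]
  simp [Complex.cos_ofReal_re, Complex.sin_ofReal_re, Complex.cosh_ofReal_re, Complex.sinh_ofReal_re,
    Complex.cos_ofReal_im, Complex.sin_ofReal_im, Complex.cosh_ofReal_im, Complex.sinh_ofReal_im]

theorem sin_re (z : ℂ) : (Complex.sin z).re = Real.sin z.re * Real.cosh z.im := by
  rw [Complex.sin_eq]
  simp [Complex.cos_ofReal_re, Complex.sin_ofReal_re, Complex.cosh_ofReal_re, Complex.sinh_ofReal_re,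
    Complex.cos_ofReal_im, Complex.sin_ofReal_im, Complex.cosh_ofReal_im, Complex.sinh_ofReal_im]

theorem sin_im (z : ℂ) : (Complex.sin z).im = Real.cos z.re * Real.sinh z.im := by
  rw [Complex.sin_eq]
  simp [Complex.cos_ofReal_re, Complex.sin_ofReal_re, Complex.cosh_ofReal_re, Complex.sinh_ofReal_re,
    Complex.cos_ofReal_im, Complex.sin_ofReal_im, Complex.cosh_ofReal_im, Complex.sinh_ofReal_im]

theorem ratio_key (a b : ℂ) : Complex.cos (a - b) * conj (Complex.cos (a + b)) =
    (((Real.cos (2 * a.re) * Real.cosh (2 * b.im) + Real.cos (2 * b.re) * Real.cosh (2 * a.im)) / 2 : ℝ) : ℂ) +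
    (((Real.sin (2 * a.re) * Real.sinh (2 * b.im) + Real.sin (2 * b.re) * Real.sinh (2 * a.im)) / 2 : ℝ) : ℂ) *
      Complex.I := by
  rw [← Complex.cos_conj]
  have e : ∀ u v : ℂ, Complex.cos u * Complex.cos v = (Complex.cos (u + v) + Complex.cos (u - v)) / 2 := by
    intro u v
    rw [Complex.cos_add, Complex.cos_sub]; ring
  rw [e]
  apply Complex.ext
  · have h1 := cos_re (a - b + conj (a + b))
    have h2 := cos_re (a - b - conj (a + b))
    have h3 : ((Complex.cos (a - b + conj (a + b)) + Complex.cos (a - b - conj (a + b))) / 2).re =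
        ((Complex.cos (a - b + conj (a + b))).re + (Complex.cos (a - b - conj (a + b))).re) / 2 := by
      simp
    rw [h3, h1, h2]
    simp only [Complex.add_re, Complex.sub_re, Complex.conj_re, Complex.add_im, Complex.sub_im,
      Complex.conj_im, Complex.ofReal_re, Complex.mul_re, Complex.I_re, Complex.ofReal_im, Complex.I_im]
    rw [show a.re - b.re + (a.re + b.re) = 2 * a.re by ring, show a.im - b.im + -(a.im + b.im) =
      -(2 * b.im) by ring, show a.re - b.re - (a.re + b.re) = -(2 * b.re) by ring,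
      show a.im - b.im - -(a.im + b.im) = 2 * a.im by ring, Real.cosh_neg, Real.cos_neg]
    ring
  · have h1 := cos_im (a - b + conj (a + b))
    have h2 := cos_im (a - b - conj (a + b))
    have h3 : ((Complex.cos (a - b + conj (a + b)) + Complex.cos (a - b - conj (a + b))) / 2).im =
        ((Complex.cos (a - b + conj (a + b))).im + (Complex.cos (a - b - conj (a + b))).im) / 2 := by
      simp
    rw [h3, h1, h2]
    simp only [Complex.add_re, Complex.sub_re, Complex.conj_re, Complex.add_im, Complex.sub_im,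
      Complex.conj_im, Complex.ofReal_re, Complex.mul_im, Complex.I_re, Complex.ofReal_im, Complex.I_im]
    rw [show a.re - b.re + (a.re + b.re) = 2 * a.re by ring, show a.im - b.im + -(a.im + b.im) =
      -(2 * b.im) by ring, show a.re - b.re - (a.re + b.re) = -(2 * b.re) by ring,
      show a.im - b.im - -(a.im + b.im) = 2 * a.im by ring, Real.sinh_neg, Real.sin_neg]
    ring

theorem ratio_slit {a b : ℂ}
    (h : 0 < Real.cos (2 * a.re) * Real.cosh (2 * b.im) + Real.cos (2 * b.re) * Real.cosh (2 * a.im) ∨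
      Real.sin (2 * a.re) * Real.sinh (2 * b.im) + Real.sin (2 * b.re) * Real.sinh (2 * a.im) ≠ 0) :
    Complex.cos (a - b) / Complex.cos (a + b) ∈ Complex.slitPlane ∧ Complex.cos (a + b) ≠ 0 ∧
      Complex.cos (a - b) ≠ 0 := by
  have key := ratio_key a b
  set X := (Real.cos (2 * a.re) * Real.cosh (2 * b.im) + Real.cos (2 * b.re) * Real.cosh (2 * a.im)) / 2
    with hX
  set Y := (Real.sin (2 * a.re) * Real.sinh (2 * b.im) + Real.sin (2 * b.re) * Real.sinh (2 * a.im)) / 2
    with hY
  have hz : 0 < X ∨ Y ≠ 0 := by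
    rcases h with h | h
    · left; rw [hX]; linarith
    · right; rw [hY]; intro h0; apply h; linarith
  have hre : ((X : ℂ) + (Y : ℂ) * Complex.I).re = X := by simp
  have him : ((X : ℂ) + (Y : ℂ) * Complex.I).im = Y := by simp
  have hne : ((X : ℂ) + (Y : ℂ) * Complex.I) ≠ 0 := by
    intro h0
    rcases hz with h | h
    · have := congrArg Complex.re h0
      rw [hre] at this
      simp at this; linarith
    · have := congrArg Complex.im h0
      rw [him] at this
      exact h this
  rw [← key] at hne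
  have n1 : Complex.cos (a - b) ≠ 0 := left_ne_zero_of_mul hne
  have n2 : Complex.cos (a + b) ≠ 0 := by
    have := right_ne_zero_of_mul hne
    intro h0; apply this; rw [h0, map_zero]
  refine ⟨?_, n2, n1⟩
  have hN : 0 < Complex.normSq (Complex.cos (a + b)) := Complex.normSq_pos.2 n2
  have e : Complex.cos (a - b) / Complex.cos (a + b) =
      (((Complex.normSq (Complex.cos (a + b)))⁻¹ : ℝ) : ℂ) * ((X : ℂ) + (Y : ℂ) * Complex.I) := by
    rw [← key, div_eq_mul_inv, Complex.inv_def]
    ring
  rw [e, Complex.mem_slitPlane_iff, Complex.re_ofReal_mul, Complex.im_ofReal_mul, hre, him]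
  rcases hz with h | h
  · left; positivity
  · right; exact mul_ne_zero (inv_ne_zero hN.ne') h

/-- the region of `χ / 2` -/
structure Rg (β : ℂ) : Prop where
  r1 : -(π / 4) ≤ β.re
  r2 : β.re ≤ 0
  i1 : 0 ≤ β.im
  i2 : β.im ≤ 9 / 10
  r3 : β.re = 0 ∨ 0 < β.im

theorem cosh_bd {y : ℝ} (h0 : 0 ≤ y) (h1 : y ≤ 9 / 10) : Real.cosh y ≤ 1441 / 1000 := by
  have hC : Real.cosh (2 * y) ≤ 63 / 20 := by
    have h1 : Real.cosh (2 * y) ≤ Real.cosh (9 / 5) := by
      rw [Real.cosh_le_cosh, abs_of_nonneg (by linarith), abs_of_pos (by norm_num)]; linarith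
    refine h1.trans ?_
    have h2 : Real.exp (9 / 5) < 61 / 10 := by
      have h3 : Real.exp (9 / 5) ^ 5 < (61 / 10) ^ 5 := by
        rw [← Real.exp_nat_mul]
        have h4 : ((5 : ℕ) : ℝ) * (9 / 5) = ((9 : ℕ) : ℝ) * 1 := by norm_num
        rw [h4, Real.exp_nat_mul]
        have h5 := Real.exp_one_lt_d9
        calc Real.exp 1 ^ 9 < 2.7182818286 ^ 9 := by
              exact pow_lt_pow_left₀ h5 (Real.exp_pos 1).le (by norm_num)
          _ < _ := by norm_num
      exact lt_of_pow_lt_pow_left₀ 5 (by norm_num) h3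
    have h6 : Real.exp (-(9 / 5)) ≤ 1 / 5 := by
      rw [Real.exp_neg, inv_eq_one_div]
      apply one_div_le_one_div_of_le (by norm_num)
      have h7 : Real.exp (9 / 5) = Real.exp (9 / 10) ^ 2 := by
        rw [← Real.exp_nat_mul]; congr 1; norm_num
      have h8 := Real.quadratic_le_exp_of_nonneg (x := (9 / 10 : ℝ)) (by norm_num)
      rw [h7]
      nlinarith
    rw [Real.cosh_eq]
    linarith
  have h3 := Real.cosh_two_mul y
  have h4 := Real.cosh_sq y
  have h5 : Real.cosh y ^ 2 ≤ (1441 / 1000) ^ 2 := by nlinarith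
  exact le_of_sq_le_sq h5 (by norm_num)

theorem sinh_mul_le {t x : ℝ} (h0 : 0 ≤ t) (h1 : t ≤ 1) (hx : 0 ≤ x) :
    Real.sinh (t * x) ≤ t * Real.sinh x := by
  have hc : ConvexOn ℝ (Ici (0:ℝ)) Real.sinh := by
    apply convexOn_of_deriv2_nonneg (convex_Ici 0) Real.continuous_sinh.continuousOn
    · exact Real.differentiable_sinh.differentiableOn
    · rw [Real.deriv_sinh]; exact Real.differentiable_cosh.differentiableOn
    · intro x hx
      rw [interior_Ici] at hx
      simp only [Function.iterate_succ, Function.iterate_zero, Function.comp_apply, id]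
      rw [Real.deriv_sinh, Real.deriv_cosh]
      exact (Real.sinh_pos_iff.2 hx).le
  have := hc.2 (mem_Ici.2 le_rfl) (mem_Ici.2 hx) (sub_nonneg.2 h1) h0 (by ring)
  simpa using this

theorem sin_mul_ge {t x : ℝ} (h0 : 0 ≤ t) (h1 : t ≤ 1) (hx : 0 ≤ x) (hx' : x ≤ π) :
    t * Real.sin x ≤ Real.sin (t * x) := by
  have := strictConcaveOn_sin_Icc.concaveOn.2 (x := 0) ⟨le_rfl, Real.pi_pos.le⟩ ⟨hx, hx'⟩
    (sub_nonneg.2 h1) h0 (by ring)
  simpa using this

end Pool.Agent.Y641.CG
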