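import Pool.Agent.Y641.CG.Der
import Pool.Agent.Y641.CB.SD3
import Pool.Agent.Y574.CB.Der

/-! The exponent near `(0, 0, χ₀)`. -/

set_option autoImplicit false

namespace Pool.Agent.Y641.CG

open Filter Topology Metric MeasureTheory Set
open scoped Real ComplexConjugate
open Pool.Agent.W711.HT Pool.Agent.W398.HT
open Pool.Agent.Y472 (gh dzz tzz szz FF Fz s0 Zr Rz S_S0P SDZ)
open Pool.Agent.Y641.CB (an1 an2 an3 slice1 slice3)

/-! ### symmetries -/

theorem tzz_symm (ψ ψ' χ : ℂ) : tzz ψ ψ' χ = tzz ψ' ψ χ := by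
  unfold tzz
  rw [mul_comm (Complex.sin (ψ / 2))]

theorem szz_symm (ψ ψ' χ : ℂ) : szz ψ ψ' χ = szz ψ' ψ χ := by
  unfold szz Fz
  rw [tzz_symm ψ ψ' χ]
  set t := tzz ψ' ψ χ
  have e1 : t + ψ / 2 + (π + ψ') / 2 = t + ψ' / 2 + (π + ψ) / 2 := by ring
  have e2 : t + ψ / 2 - (π + ψ') / 2 = t - ψ' / 2 - (π - ψ) / 2 := by ring
  have e3 : t - ψ / 2 + (π - ψ') / 2 = t - ψ' / 2 + (π - ψ) / 2 := by ring
  have e4 : t - ψ / 2 - (π - ψ') / 2 = t + ψ' / 2 - (π + ψ) / 2 := by ring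
  rw [e1, e2, e3, e4]
  ring

theorem dzz_symm (ψ ψ' χ : ℂ) : dzz ψ ψ' χ = dzz ψ' ψ χ := by
  unfold dzz
  rw [tzz_symm ψ ψ' χ, mul_comm (Complex.cos (ψ / 2))]

theorem szz_neg_of {ψ ψ' χ : ℂ} (h : tzz (-ψ) ψ' χ = -tzz ψ ψ' χ) :
    szz (-ψ) ψ' χ = szz ψ ψ' χ := by
  unfold szz Fz
  rw [h]
  set t := tzz ψ ψ' χ
  have e1 : -t + -ψ / 2 + (π + ψ') / 2 = -(t + ψ / 2 - (π + ψ') / 2) := by ring
  have e2 : -t + -ψ / 2 - (π + ψ') / 2 = -(t + ψ / 2 + (π + ψ') / 2) := by ring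
  have e3 : -t - -ψ / 2 + (π - ψ') / 2 = -(t - ψ / 2 - (π - ψ') / 2) := by ring
  have e4 : -t - -ψ / 2 - (π - ψ') / 2 = -(t - ψ / 2 + (π - ψ') / 2) := by ring
  rw [e1, e2, e3, e4, FF_neg, FF_neg, FF_neg, FF_neg]
  ring

theorem dzz_neg_of {ψ ψ' χ : ℂ} (h : tzz (-ψ) ψ' χ = -tzz ψ ψ' χ) :
    dzz (-ψ) ψ' χ = dzz ψ ψ' χ := by
  unfold dzz
  rw [h, Complex.cos_neg, neg_div, Complex.cos_neg]

/-- the value at `(0, 0, χ)` -/
theorem szz_zero {χ : ℂ} (hw : 0 < (Complex.cos (χ / 2)).re) : szz 0 0 χ = s0 χ := by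
  have hp := pi_ne
  unfold szz Fz
  rw [tzz_zero]
  have e1 : (0 : ℂ) + 0 / 2 + (π + 0) / 2 = π / 2 := by ring
  have e2 : (0 : ℂ) + 0 / 2 - (π + 0) / 2 = -(π / 2) := by ring
  have e3 : (0 : ℂ) - 0 / 2 + (π - 0) / 2 = π / 2 := by ring
  have e4 : (0 : ℂ) - 0 / 2 - (π - 0) / 2 = -(π / 2) := by ring
  rw [e1, e2, e3, e4, FF_neg]
  -- the integral over `[0, π / 2]`
  have h1 : FF χ (π / 2) = ∫ θ in (0 : ℝ)..(π / 2),
      Complex.log (2 * Complex.cos (χ / 2) + 2 * Complex.cos (θ : ℂ)) := by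
    have hpi : (π / 2 : ℝ) ≠ 0 := by positivity
    have h2 := intervalIntegral.integral_comp_mul_left (a := 0) (b := 1)
      (fun θ : ℝ => Complex.log (2 * Complex.cos (χ / 2) + 2 * Complex.cos (θ : ℂ))) hpi
    rw [mul_zero, mul_one] at h2
    unfold FF
    have h3 : ∫ x in (0:ℝ)..1, Complex.log (2 * Complex.cos (χ / 2) + 2 * Complex.cos (π / 2 * x)) =
        ∫ x in (0:ℝ)..1, Complex.log (2 * Complex.cos (χ / 2) +
          2 * Complex.cos (((π / 2 * x : ℝ)) : ℂ)) := by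
      apply intervalIntegral.integral_congr
      intro x _
      simp only
      push_cast
      rfl
    rw [h3, h2, Complex.real_smul]
    push_cast
    field_simp
  have h4 : ∫ θ in (-(π / 2))..(0 : ℝ), Complex.log (2 * Complex.cos (χ / 2) + 2 * Complex.cos (θ : ℂ)) =
      ∫ θ in (0 : ℝ)..(π / 2), Complex.log (2 * Complex.cos (χ / 2) + 2 * Complex.cos (θ : ℂ)) := by
    have := intervalIntegral.integral_comp_neg (a := 0) (b := π / 2)
      (fun θ : ℝ => Complex.log (2 * Complex.cos (χ / 2) + 2 * Complex.cos (θ : ℂ)))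
    rw [neg_zero] at this
    rw [← this]
    apply intervalIntegral.integral_congr
    intro x _
    simp only
    rw [Complex.ofReal_neg, Complex.cos_neg]
  have hpos := Real.pi_pos
  have hint : ∀ a b : ℝ, -(π / 2) ≤ a → a ≤ b → b ≤ π / 2 → IntervalIntegrable (fun θ : ℝ =>
      Complex.log (2 * Complex.cos (χ / 2) + 2 * Complex.cos (θ : ℂ))) volume a b := by
    intro a b ha hab hb
    apply ContinuousOn.intervalIntegrable
    rw [uIcc_of_le hab]
    apply ContinuousOn.clog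
    · apply Continuous.continuousOn
      fun_prop
    · intro θ hθ
      rw [Complex.mem_slitPlane_iff]
      left
      have h7 : 0 ≤ Real.cos θ := Real.cos_nonneg_of_neg_pi_div_two_le_of_le
        (ha.trans hθ.1) (hθ.2.trans hb)
      rw [← Complex.ofReal_cos]
      simp only [Complex.add_re, Complex.mul_re, Complex.re_ofNat, Complex.im_ofNat, zero_mul, sub_zero,
        Complex.ofReal_re]
      linarith
  have h5 := intervalIntegral.integral_add_adjacent_intervals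
    (hint (-(π / 2)) 0 le_rfl (by linarith) (by linarith))
    (hint 0 (π / 2) (by linarith) (by linarith) le_rfl)
  rw [h4] at h5
  unfold s0
  rw [← h5, h1]
  field_simp
  ring

section
variable {β : ℂ} (h : Rg β)
include h

theorem ev_tneg : ∀ᶠ p : ℂ × ℂ × ℂ in 𝓝 (p0 β), tzz (-p.1) p.2.1 p.2.2 = -tzz p.1 p.2.1 p.2.2 := by
  have : Tendsto zz (𝓝 (p0 β)) (𝓝 0) := by
    have := (zz_an h).continuousAt.tendsto
    rwa [zz_p0] at this
  filter_upwards [this.eventually asn_neg] with p hp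
  have e : -(Complex.sin (-p.1 / 2) * Complex.sin (p.2.1 / 2) / Complex.cos (p.2.2 / 2)) = -zz p := by
    unfold zz
    rw [neg_div, Complex.sin_neg]
    ring
  unfold tzz
  rw [e, hp]
  rfl

theorem DD_base : DD (p0 β) (0, 0, 1) = -(1 / π) * gh (2 * β) := by
  have hp := pi_ne
  simp only [DD, add_apply, smul_apply, smul_eq_mul, dx1_apply, dx2_apply, dx3_apply]
  rw [(lgc h).2.1]
  field_simp
  ring

/-- the derivative along the third axis -/
theorem sS_axis : HasDerivAt (fun z => sS (0, 0, z)) (-(1 / π) * gh (2 * β)) (2 * β) := by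
  have h1 : HasFDerivAt sS (DD (p0 β)) (p0 β) := (ev_sS h).self_of_nhds
  have h2 : HasDerivAt (fun z : ℂ => ((0, 0, z) : ℂ × ℂ × ℂ)) (0, 0, 1) (2 * β) :=
    (hasDerivAt_const _ _).prodMk ((hasDerivAt_const _ _).prodMk (hasDerivAt_id _))
  have h3 := HasFDerivAt.comp_hasDerivAt (x := 2 * β) (f := fun z : ℂ => ((0, 0, z) : ℂ × ℂ × ℂ)) 
    (l := sS) (l' := DD (p0 β)) h1 h2
  rw [DD_base h] at h3
  exact h3

end

theorem rg_mul {β : ℂ} (h : Rg β) (hi : 0 < β.im) {τ : ℝ} (h0 : 0 ≤ τ) (h1 : τ ≤ 1) : Rg (τ * β) := by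
  have e1 : ((τ : ℂ) * β).re = τ * β.re := Complex.re_ofReal_mul _ _
  have e2 : ((τ : ℂ) * β).im = τ * β.im := Complex.im_ofReal_mul _ _
  have hp := Real.pi_pos
  refine ⟨?_, ?_, ?_, ?_, ?_⟩
  · rw [e1]; nlinarith [h.r1, h.r2]
  · rw [e1]; nlinarith [h.r2]
  · rw [e2]; positivity
  · rw [e2]; nlinarith [h.i2]
  · rw [e1, e2]
    rcases h0.eq_or_lt with h2 | h2
    · left; rw [← h2, zero_mul]
    · right; positivity

theorem sS_origin : sS (0, 0, 0) = ((2 * bet : ℝ) : ℂ) := by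
  have h0 : Rg 0 := ⟨by simp; positivity, by simp, by simp, by norm_num, by simp⟩
  have h1 : dz (0, 0, 0) = 1 / 4 := by
    have := dz_p0 h0
    rw [p0, mul_zero] at this
    rw [this, d0, al, AA, vv]
    have hp := pi_ne
    have ha : Complex.arctan 0 = 0 := by simp [Complex.arctan]
    simp only [Complex.cos_zero, sub_self, zero_div, ha, sub_zero]
    field_simp
    norm_num
  have h2 := Pool.Agent.W398.HT.val
  have h3 := Pool.Agent.Y641.CB.rr_ss
  unfold sS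
  rw [h1, ← h2, show (1 / 2 - 1 / 4 : ℂ) = 1 / 4 by norm_num]
  linear_combination h3

/-- the value at the base point -/
theorem sS_base (hS : S_S0P) {β : ℂ} (h : Rg β) (hi : 0 < β.im) : sS (p0 β) = s0 (2 * β) := by
  obtain ⟨q1, -, q3, -, -⟩ := hS
  set f : ℝ → ℂ := fun τ => sS (0, 0, 2 * (τ * β)) - s0 (2 * (τ * β)) with hf
  have hd : ∀ τ ∈ Icc (0 : ℝ) 1, HasDerivAt f 0 τ := by
    intro τ hτ
    have hr := rg_mul h hi hτ.1 hτ.2
    have h1 := sS_axis hr
    have hre : |(2 * ((τ : ℂ) * β)).re| < π := by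
      have e1 : (2 * ((τ : ℂ) * β)).re = 2 * (τ * β.re) := by
        simp
      rw [e1, abs_lt]
      have := h.r1
      have := h.r2
      have hp := Real.pi_pos
      constructor
      · nlinarith [hτ.1, hτ.2]
      · nlinarith [hτ.1, hτ.2]
    have h2 := (q1 _ hre).1
    have h3 := h1.sub h2
    rw [sub_self] at h3
    have h4 : HasDerivAt (fun τ : ℝ => (2 * ((τ : ℂ) * β))) (2 * β) τ := by
      have := ((Complex.ofRealCLM.hasDerivAt (x := τ)).mul_const β).const_mul 2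
      simpa using this
    have h5 := HasDerivAt.comp (h₂ := (fun z => sS (0, 0, z)) - s0)
      (h := fun τ : ℝ => (2 * ((τ : ℂ) * β))) τ h3 h4
    rw [zero_mul] at h5
    exact h5
  have hc := constant_of_has_deriv_right_zero (f := f) (a := 0) (b := 1)
    (fun τ hτ => (hd τ hτ).continuousAt.continuousWithinAt)
    (fun τ hτ => (hd τ ⟨hτ.1, hτ.2.le⟩).hasDerivWithinAt) 1 ⟨zero_le_one, le_rfl⟩
  simp only [hf, Complex.ofReal_one, one_mul, Complex.ofReal_zero, zero_mul, mul_zero, sS_origin, q3,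
    sub_self] at hc
  exact sub_eq_zero.1 hc

end Pool.Agent.Y641.CG
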