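import Pool.Agent.Y641.CG.Base
import Pool.Agent.Y641.CG.Ident
import Pool.Agent.Y641.CB.SD3a

/-! The saddle point near the base point. -/

set_option autoImplicit false

namespace Pool.Agent.Y641.CG

open Filter Topology Metric MeasureTheory Set
open scoped Real ComplexConjugate
open Pool.Agent.W711.HT Pool.Agent.W398.HT
open Pool.Agent.Y472 (gh dzz tzz szz)
open Pool.Agent.Y641.CB (an1 an2 an3)

theorem asn_eq {z : ℂ} (hz : 1 - z ^ 2 ≠ 0) : Pool.Agent.Y472.asn z = Pool.Agent.W177.HT.asn z := by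
  unfold Pool.Agent.Y472.asn Pool.Agent.W177.HT.asn
  rw [Complex.cpow_def_of_ne_zero hz]
  congr 5
  ring

theorem ev_sq : ∀ᶠ z : ℂ in 𝓝 0, 1 - z ^ 2 ≠ 0 := by
  have : ContinuousAt (fun z : ℂ => 1 - z ^ 2) 0 := by fun_prop
  apply this.eventually_ne
  simp

theorem asn_an' : AnalyticAt ℂ Pool.Agent.Y472.asn 0 := by
  apply Pool.Agent.W177.HT.asn_an.congr
  filter_upwards [ev_sq] with z hz
  exact (asn_eq hz).symm

theorem sin_asn' {z : ℂ} (hz : 1 - z ^ 2 ≠ 0) : Complex.sin (Pool.Agent.Y472.asn z) = z := by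
  rw [asn_eq hz, Pool.Agent.W177.HT.sin_asn z hz]

theorem asn_neg : ∀ᶠ z : ℂ in 𝓝 0, Pool.Agent.Y472.asn (-z) = -Pool.Agent.Y472.asn z := by
  have h1 : ∀ᶠ z : ℂ in 𝓝 0, 0 < (Complex.I * z + Complex.exp (Complex.log (1 - z ^ 2) / 2)).re := by
    have hc : ContinuousAt (fun z : ℂ => (Complex.I * z +
        Complex.exp (Complex.log (1 - z ^ 2) / 2)).re) 0 := by
      have h2 : ContinuousAt (fun z : ℂ => Complex.log (1 - z ^ 2)) 0 := by
        apply ContinuousAt.clog
        · fun_prop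
        · simp
      have h3 : ContinuousAt (fun z : ℂ => Complex.exp (Complex.log (1 - z ^ 2) / 2)) 0 :=
        (h2.div_const 2).cexp
      exact Complex.continuous_re.continuousAt.comp' ((by fun_prop : ContinuousAt
        (fun z : ℂ => Complex.I * z) 0).add h3)
    apply hc.eventually_const_lt
    simp
  filter_upwards [h1, ev_sq] with z hz hz2
  have hz2' : 1 - (-z) ^ 2 ≠ 0 := by rwa [neg_sq]
  rw [asn_eq hz2, asn_eq hz2']
  unfold Pool.Agent.W177.HT.asn
  rw [neg_sq]
  set E := Complex.exp (Complex.log (1 - z ^ 2) / 2) with hE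
  have hE2 : E ^ 2 = 1 - z ^ 2 := by
    rw [hE, ← Complex.exp_nat_mul]
    rw [show ((2 : ℕ) : ℂ) * (Complex.log (1 - z ^ 2) / 2) = Complex.log (1 - z ^ 2) by
      push_cast; ring, Complex.exp_log hz2]
  have hne : Complex.I * z + E ≠ 0 := by
    intro h0; rw [h0, Complex.zero_re] at hz; exact lt_irrefl _ hz
  have e1 : Complex.I * -z + E = (Complex.I * z + E)⁻¹ := by
    apply eq_inv_of_mul_eq_one_left
    linear_combination hE2 - z ^ 2 * Complex.I_sq
  have h2 := Complex.abs_arg_lt_pi_div_two_iff.2 (Or.inl hz)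
  rw [abs_lt] at h2
  rw [e1, Complex.log_inv]
  · ring
  · intro h3; rw [h3] at h2; linarith [Real.pi_pos]

/-- the base point -/
def p0 (β : ℂ) : ℂ × ℂ × ℂ := (0, 0, 2 * β)

/-- the sine of the saddle point -/
noncomputable def zz (p : ℂ × ℂ × ℂ) : ℂ :=
  -(Complex.sin (p.1 / 2) * Complex.sin (p.2.1 / 2) / Complex.cos (p.2.2 / 2))

/-- the saddle point -/
noncomputable def tz (p : ℂ × ℂ × ℂ) : ℂ := tzz p.1 p.2.1 p.2.2

/-- the tangent of the critical angle -/
noncomputable def qq (p : ℂ × ℂ × ℂ) : ℂ :=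
  Complex.cos (p.1 / 2) * Complex.cos (p.2.1 / 2) / (Complex.cos (p.2.2 / 2) * Complex.cos (tz p))

/-- the critical value of `d / N` -/
noncomputable def dz (p : ℂ × ℂ × ℂ) : ℂ := dzz p.1 p.2.1 p.2.2

theorem tz_eq (p : ℂ × ℂ × ℂ) : tz p = Pool.Agent.Y472.asn (zz p) := rfl

theorem dz_eq (p : ℂ × ℂ × ℂ) : dz p = Complex.arctan (qq p) / π := rfl

theorem han1 (p : ℂ × ℂ × ℂ) : AnalyticAt ℂ (fun p : ℂ × ℂ × ℂ => p.1 / 2) p :=
  (an1 p).div analyticAt_const two_ne_zero

theorem han2 (p : ℂ × ℂ × ℂ) : AnalyticAt ℂ (fun p : ℂ × ℂ × ℂ => p.2.1 / 2) p :=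
  (an2 p).div analyticAt_const two_ne_zero

theorem han3 (p : ℂ × ℂ × ℂ) : AnalyticAt ℂ (fun p : ℂ × ℂ × ℂ => p.2.2 / 2) p :=
  (an3 p).div analyticAt_const two_ne_zero

theorem half3 (β : ℂ) : (p0 β).2.2 / 2 = β := by
  simp only [p0]
  rw [mul_div_cancel_left₀ _ (two_ne_zero)]

theorem zz_p0 (β : ℂ) : zz (p0 β) = 0 := by simp [zz, p0]

theorem tz_p0 (β : ℂ) : tz (p0 β) = 0 := by rw [tz_eq, zz_p0, asn_zero']

theorem qq_p0 (β : ℂ) : qq (p0 β) = 1 / Complex.cos β := by
  rw [qq, tz_p0, half3]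
  simp [p0]

section
variable {β : ℂ} (h : Rg β)
include h

theorem zz_an : AnalyticAt ℂ zz (p0 β) := by
  unfold zz
  apply AnalyticAt.neg
  apply AnalyticAt.div
  · exact (Complex.analyticAt_sin.fun_comp (han1 _)).mul (Complex.analyticAt_sin.fun_comp (han2 _))
  · exact Complex.analyticAt_cos.fun_comp (han3 _)
  · rw [half3]; exact cos_ne h

theorem tz_an : AnalyticAt ℂ tz (p0 β) := by
  have : tz = fun p => Pool.Agent.Y472.asn (zz p) := by funext p; exact tz_eq p
  rw [this]
  apply AnalyticAt.fun_comp (f := zz) (g := Pool.Agent.Y472.asn) _ (zz_an h)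
  rw [zz_p0]; exact asn_an'

theorem qq_an : AnalyticAt ℂ qq (p0 β) := by
  unfold qq
  apply AnalyticAt.div
  · exact (Complex.analyticAt_cos.fun_comp (han1 _)).mul (Complex.analyticAt_cos.fun_comp (han2 _))
  · exact (Complex.analyticAt_cos.fun_comp (han3 _)).mul (Complex.analyticAt_cos.fun_comp (tz_an h))
  · rw [half3, tz_p0, Complex.cos_zero, mul_one]; exact cos_ne h

theorem inv_ne : 1 / Complex.cos β ≠ Complex.I ∧ 1 / Complex.cos β ≠ -Complex.I := by
  have h1 := wr_pos h
  have h2 := cos_ne h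
  constructor
  · intro h0
    rw [div_eq_iff h2] at h0
    have := congrArg Complex.im h0
    rw [Complex.I_mul_im, Complex.one_im] at this
    linarith
  · intro h0
    rw [div_eq_iff h2] at h0
    have := congrArg Complex.im h0
    rw [neg_mul, Complex.neg_im, Complex.I_mul_im, Complex.one_im] at this
    linarith

theorem arctan_an : AnalyticAt ℂ Complex.arctan (1 / Complex.cos β) := by
  have h1 := wr_pos h
  have h2 := cos_ne h
  have hden : 1 - (1 / Complex.cos β) * Complex.I ≠ 0 := by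
    intro h0
    apply (inv_ne h).2
    have : (1 / Complex.cos β) * Complex.I = 1 := by linear_combination -h0
    have h3 : (1 / Complex.cos β) * Complex.I * Complex.I = Complex.I := by rw [this, one_mul]
    rw [mul_assoc, Complex.I_mul_I] at h3
    linear_combination -h3
  unfold Complex.arctan
  apply AnalyticAt.mul analyticAt_const
  apply AnalyticAt.clog
  · apply AnalyticAt.div
    · exact analyticAt_const.add (analyticAt_id.mul analyticAt_const)
    · exact analyticAt_const.sub (analyticAt_id.mul analyticAt_const)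
    · exact hden
  · rw [Complex.mem_slitPlane_iff]
    right
    intro him
    set r := (1 + (1 / Complex.cos β) * Complex.I) / (1 - (1 / Complex.cos β) * Complex.I) with hr
    have hr1 : r = ((r.re : ℝ) : ℂ) := by
      apply Complex.ext
      · simp
      · simp only [Complex.ofReal_im]; exact him
    have h3 : r * (1 - (1 / Complex.cos β) * Complex.I) = 1 + (1 / Complex.cos β) * Complex.I := by
      rw [hr, div_mul_cancel₀ _ hden]
    have h4 : Complex.cos β * (r - 1) = Complex.I * (r + 1) := by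
      have h5 := congrArg (fun x => Complex.cos β * x) h3
      field_simp at h5
      linear_combination h5
    rw [hr1] at h4
    have h5 := congrArg Complex.re h4
    have h6 := congrArg Complex.im h4
    simp only [Complex.mul_re, Complex.mul_im, Complex.sub_re, Complex.sub_im, Complex.add_re,
      Complex.add_im, Complex.ofReal_re, Complex.ofReal_im, Complex.one_re, Complex.one_im,
      Complex.I_re, Complex.I_im] at h5 h6
    have h7 : (Complex.cos β).re * (r.re - 1) = 0 := by linarith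
    rcases mul_eq_zero.1 h7 with h8 | h8
    · linarith
    · have h9 : r.re = 1 := by linarith
      rw [h9] at h6
      norm_num at h6

theorem dz_an : AnalyticAt ℂ dz (p0 β) := by
  have : dz = fun p => Complex.arctan (qq p) / π := by funext p; exact dz_eq p
  rw [this]
  apply AnalyticAt.div _ analyticAt_const pi_ne
  apply AnalyticAt.fun_comp (f := qq) (g := Complex.arctan) _ (qq_an h)
  rw [qq_p0]; exact arctan_an h

theorem dz_p0 : dz (p0 β) = d0 β := by
  change dzz 0 0 (2 * β) = d0 β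
  exact dzz_base h

/-- algebraic relations near the base point -/
theorem ev_rel : ∀ᶠ p : ℂ × ℂ × ℂ in 𝓝 (p0 β), Complex.cos (p.2.2 / 2) ≠ 0 ∧
    Complex.cos (tz p) ≠ 0 ∧
    Complex.cos (p.2.2 / 2) * Complex.sin (tz p) = -(Complex.sin (p.1 / 2) * Complex.sin (p.2.1 / 2)) ∧
    Complex.cos (π * dz p) ≠ 0 ∧
    Complex.sin (π * dz p) * (Complex.cos (p.2.2 / 2) * Complex.cos (tz p)) =
      Complex.cos (p.1 / 2) * Complex.cos (p.2.1 / 2) * Complex.cos (π * dz p) := by
  have c3 : ContinuousAt (fun p : ℂ × ℂ × ℂ => Complex.cos (p.2.2 / 2)) (p0 β) :=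
    (Complex.analyticAt_cos.fun_comp (han3 _)).continuousAt
  have ct : ContinuousAt (fun p : ℂ × ℂ × ℂ => Complex.cos (tz p)) (p0 β) :=
    (Complex.analyticAt_cos.fun_comp (tz_an h)).continuousAt
  have cd : ContinuousAt (fun p : ℂ × ℂ × ℂ => Complex.cos (π * dz p)) (p0 β) :=
    (Complex.analyticAt_cos.fun_comp (analyticAt_const.mul (dz_an h))).continuousAt
  have n3 := c3.eventually_ne (y := 0) (by rw [half3]; exact cos_ne h)
  have nt := ct.eventually_ne (y := 0) (by rw [tz_p0, Complex.cos_zero]; exact one_ne_zero)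
  have nd := cd.eventually_ne (y := 0) (by
    rw [dz_p0 h, pi_d0, Complex.cos_pi_div_two_sub]; exact sin_al_ne h)
  have nz : ∀ᶠ p : ℂ × ℂ × ℂ in 𝓝 (p0 β), 1 - zz p ^ 2 ≠ 0 := by
    have : Tendsto zz (𝓝 (p0 β)) (𝓝 0) := by
      have := (zz_an h).continuousAt.tendsto
      rwa [zz_p0] at this
    exact this.eventually ev_sq
  have n4 := (qq_an h).continuousAt.eventually_ne (y := Complex.I) (by
    rw [qq_p0]; exact (inv_ne h).1)
  have n5 := (qq_an h).continuousAt.eventually_ne (y := -Complex.I) (by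
    rw [qq_p0]; exact (inv_ne h).2)
  filter_upwards [n3, nt, nd, nz, n4, n5] with p n3 nt nd nz n4 n5
  refine ⟨n3, nt, ?_, nd, ?_⟩
  · rw [tz_eq, sin_asn' nz, zz]
    field_simp
  · have h1 := Complex.tan_arctan n4 n5
    have h2 : π * dz p = Complex.arctan (qq p) := by
      rw [dz_eq, mul_div_cancel₀ _ pi_ne]
    rw [← h2, Complex.tan_eq_sin_div_cos, div_eq_iff nd, qq] at h1
    rw [h1]
    field_simp

end

end Pool.Agent.Y641.CG
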